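import Mathlib

/-!
# Core and anticore of a tetrahedron (MP_46b0f6_co): the definitions of the statement

Space is `E3`, the plane of the developments is `ℂ`.
-/

namespace Pool.Agent.Cac

open Set

/-- Euclidean space. -/
abbrev E3 := EuclideanSpace ℝ (Fin 3)

/-- The surface of the tetrahedron with vertices `v`: the union of its four faces. -/
def Surf (v : Fin 4 → E3) : Set E3 := {y | ∃ i, y ∈ convexHull ℝ (v '' {j | j ≠ i})}

/-- `c 0, ..., c n` are the corners of a polygonal path from `x` to `y` that runs in `S`. -/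
def IsPath (S : Set E3) (x y : E3) (n : ℕ) (c : ℕ → E3) : Prop :=
  c 0 = x ∧ c n = y ∧ ∀ i < n, segment ℝ (c i) (c (i + 1)) ⊆ S

/-- The length of the polygonal path with corners `c 0, ..., c n`. -/
noncomputable def len (n : ℕ) (c : ℕ → E3) : ℝ := ∑ i ∈ Finset.range n, dist (c i) (c (i + 1))

/-- `l` is the length of a shortest polygonal path from `x` to `y` on the surface. -/
def IsLeastLen (v : Fin 4 → E3) (x y : E3) (l : ℝ) : Prop :=
  (∃ n c, IsPath (Surf v) x y n c ∧ len n c = l) ∧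
    ∀ n c, IsPath (Surf v) x y n c → l ≤ len n c

/-- The plane region made of the two triangles `a b c` and `b c d`. -/
def reg (a b c d : ℂ) : Set ℂ := convexHull ℝ {a, b, c} ∪ convexHull ℝ {b, c, d}

/-- `p` is a development into the plane of the two faces `w 0, w 1, w 2` and `w 1, w 2, w 3`,
hinged at the edge `w 1, w 2`. -/
structure IsDev (w : Fin 4 → E3) (p : Fin 4 → ℂ) : Prop where
  d01 : dist (p 0) (p 1) = dist (w 0) (w 1)
  d02 : dist (p 0) (p 2) = dist (w 0) (w 2)
  d12 : dist (p 1) (p 2) = dist (w 1) (w 2)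
  d13 : dist (p 1) (p 3) = dist (w 1) (w 3)
  d23 : dist (p 2) (p 3) = dist (w 2) (w 3)
  opp : (line[ℝ, p 1, p 2]).SOppSide (p 0) (p 3)

/-- The other two faces: hinged at the edge `v 0, v 3`. -/
def sw (v : Fin 4 → E3) : Fin 4 → E3 := ![v 1, v 0, v 3, v 2]

/-- The plane region of a development: its two triangles. -/
def Reg (p : Fin 4 → ℂ) : Set ℂ := reg (p 0) (p 1) (p 2) (p 3)

/-- The points `v 0, ..., v 3` are the vertices of a non-degenerate tetrahedron. -/
def Nondeg (v : Fin 4 → E3) : Prop := AffineIndependent ℝ v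

/-- `x` is in the face `v 0, v 1, v 2`, the point `q` is in the open edge `v 1, v 2`, and `x, q, v 3`
is a shortest polygonal path on the surface. -/
def Position (v : Fin 4 → E3) (x q : E3) : Prop :=
  x ∈ convexHull ℝ {v 0, v 1, v 2} ∧ q ∈ openSegment ℝ (v 1) (v 2) ∧
    ∀ n c, IsPath (Surf v) x (v 3) n c → dist x q + dist q (v 3) ≤ len n c

/-- The hinge edges are equal and one more pair of opposite edges is equal. -/
def EdgeCond (v : Fin 4 → E3) : Prop :=
  dist (v 1) (v 2) = dist (v 0) (v 3) ∧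
    (dist (v 0) (v 1) = dist (v 2) (v 3) ∨ dist (v 0) (v 2) = dist (v 1) (v 3))

/-- An isometry of space exchanges `v 0, v 1` and `v 2, v 3`, or `v 0, v 2` and `v 1, v 3`. -/
def Swaps (v : Fin 4 → E3) : Prop :=
  ∃ f : E3 ≃ᵢ E3, (f (v 0) = v 1 ∧ f (v 1) = v 0 ∧ f (v 2) = v 3 ∧ f (v 3) = v 2) ∨
    (f (v 0) = v 2 ∧ f (v 2) = v 0 ∧ f (v 1) = v 3 ∧ f (v 3) = v 1)

end Pool.Agent.Cac
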