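import Pool.Agent.Cac.Defs

/-!
# Congruent quadruples of points of space (MP_46b0f6_co)
-/

namespace Pool.Agent.Cac

/-- Four affinely independent points and four points with the same distances are exchanged by an
isometry of space. -/
theorem exists_isometry {v w : Fin 4 → E3} (hv : AffineIndependent ℝ v)
    (h : ∀ i j, dist (w i) (w j) = dist (v i) (v j)) : ∃ f : E3 ≃ᵢ E3, ∀ i, f (v i) = w i := by
  have hli : LinearIndependent ℝ (fun i : Fin 3 => v i.succ - v 0) := by
    have h1 := (affineIndependent_iff_linearIndependent_vsub ℝ v 0).1 hv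
    have h2 := h1.comp (fun i : Fin 3 => (⟨i.succ, Fin.succ_ne_zero i⟩ : {x : Fin 4 // x ≠ 0}))
      (fun i j hij => Fin.succ_injective 3 (congrArg Subtype.val hij))
    exact h2
  have hcard : Fintype.card (Fin 3) = Module.finrank ℝ E3 := by simp
  set b := basisOfLinearIndependentOfCardEqFinrank hli hcard with hb
  have hbi : ∀ i, b i = v i.succ - v 0 := fun i => by
    rw [hb, coe_basisOfLinearIndependentOfCardEqFinrank]
  set L : E3 →ₗ[ℝ] E3 := b.constr ℝ (fun i => w i.succ - w 0) with hL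
  have hLi : ∀ i, L (b i) = w i.succ - w 0 := fun i => by rw [hL, Module.Basis.constr_basis]
  have hin : ∀ i j : Fin 3, inner ℝ (w i.succ - w 0) (w j.succ - w 0) =
      inner ℝ (v i.succ - v 0) (v j.succ - v 0) := by
    intro i j
    have key : ∀ u : Fin 4 → E3, inner ℝ (u i.succ - u 0) (u j.succ - u 0) =
        (dist (u i.succ) (u 0) ^ 2 + dist (u j.succ) (u 0) ^ 2 -
          dist (u i.succ) (u j.succ) ^ 2) / 2 := by
      intro u
      have h3 : u i.succ - u j.succ = (u i.succ - u 0) - (u j.succ - u 0) := by abel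
      rw [dist_eq_norm, dist_eq_norm, dist_eq_norm, h3,
        norm_sub_sq_real (u i.succ - u 0) (u j.succ - u 0)]
      ring
    rw [key, key, h, h, h]
  have hiso : ∀ x y, inner ℝ (L x) (L y) = inner ℝ x y := by
    intro x y
    rw [← b.sum_repr x, ← b.sum_repr y]
    simp only [map_sum, map_smul, hLi, sum_inner, inner_sum, inner_smul_left, inner_smul_right]
    simp only [hin, hbi]
  let Li : E3 →ₗᵢ[ℝ] E3 := L.isometryOfInner hiso
  let Le : E3 ≃ₗᵢ[ℝ] E3 := Li.toLinearIsometryEquiv rfl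
  have hLe : ∀ x, Le x = L x := fun x => rfl
  refine ⟨((IsometryEquiv.subRight (v 0)).trans Le.toIsometryEquiv).trans
    (IsometryEquiv.addRight (w 0)), fun i => ?_⟩
  show Le (v i - v 0) + w 0 = w i
  rw [hLe]
  refine Fin.cases ?_ (fun i => ?_) i
  · rw [sub_self, map_zero, zero_add]
  · rw [← hbi, hLi, sub_add_cancel]

/-- The edge condition says that a symmetry exchanges the two hinge edges. -/
theorem symmetry_iff {v : Fin 4 → E3} (hv : AffineIndependent ℝ v) :
    (dist (v 1) (v 2) = dist (v 0) (v 3) ∧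
      (dist (v 0) (v 1) = dist (v 2) (v 3) ∨ dist (v 0) (v 2) = dist (v 1) (v 3))) ↔
    ∃ f : E3 ≃ᵢ E3, (f (v 0) = v 1 ∧ f (v 1) = v 0 ∧ f (v 2) = v 3 ∧ f (v 3) = v 2) ∨
      (f (v 0) = v 2 ∧ f (v 2) = v 0 ∧ f (v 1) = v 3 ∧ f (v 3) = v 1) := by
  constructor
  · rintro ⟨h1, h2 | h2⟩
    · obtain ⟨f, hf⟩ := exists_isometry (w := ![v 2, v 3, v 0, v 1]) hv (by
        intro i j
        fin_cases i <;> fin_cases j <;>
          simp [h1, h2, dist_comm (v 1) (v 0), dist_comm (v 2) (v 0),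
            dist_comm (v 3) (v 0), dist_comm (v 2) (v 1), dist_comm (v 3) (v 1),
            dist_comm (v 3) (v 2)])
      exact ⟨f, Or.inr ⟨hf 0, hf 2, hf 1, hf 3⟩⟩
    · obtain ⟨f, hf⟩ := exists_isometry (w := ![v 1, v 0, v 3, v 2]) hv (by
        intro i j
        fin_cases i <;> fin_cases j <;>
          simp [h1, h2, dist_comm (v 1) (v 0), dist_comm (v 2) (v 0),
            dist_comm (v 3) (v 0), dist_comm (v 2) (v 1), dist_comm (v 3) (v 1),
            dist_comm (v 3) (v 2)])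
      exact ⟨f, Or.inl ⟨hf 0, hf 1, hf 2, hf 3⟩⟩
  · rintro ⟨f, ⟨h0, h1, h2, h3⟩ | ⟨h0, h2, h1, h3⟩⟩
    · refine ⟨?_, Or.inr ?_⟩
      · rw [← f.isometry.dist_eq (v 1) (v 2), h1, h2]
      · rw [← f.isometry.dist_eq (v 0) (v 2), h0, h2]
    · refine ⟨?_, Or.inl ?_⟩
      · rw [← f.isometry.dist_eq (v 1) (v 2), h1, h2, dist_comm]
      · rw [← f.isometry.dist_eq (v 0) (v 1), h0, h1]

end Pool.Agent.Cac
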