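import Pool.Agent.Cac.Defs

/-!
# Core and anticore of a tetrahedron (MP_46b0f6_co): the proof
-/

namespace Pool.Agent.Cac

open Set

/-! ## Plane configurations -/

/-- `a, b, c` are affinely independent (elementary form). -/
def Ind (a b c : ℂ) : Prop :=
  ∀ x y z : ℝ, x + y + z = 0 → x • a + y • b + z • c = 0 → x = 0 ∧ y = 0 ∧ z = 0

/-- The segment from `a` to `d` crosses the line `b c`: at the parameter `s` on `a d` and the
parameter `t` on the line `b c`. -/
structure Cr (a b c d : ℂ) (s t : ℝ) : Prop where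
  ind : Ind a b c
  s0 : 0 < s
  s1 : s < 1
  eq : (1 - s) • a + s • d = (1 - t) • b + t • c

/-- The equations between the sides of the two developments. -/
structure Dat (a b c d a' b' c' d' : ℂ) : Prop where
  A : dist a b = dist a' b'
  B : dist b d = dist a' c'
  C : dist c d = dist c' d'
  D : dist a c = dist b' d'
  E : dist b c < dist a' d'
  F : dist b' c' < dist a d

-- BEGIN row hull3
/-- Hull of three points in a real vector space.
PROOF. `convexHull_insert` twice, `convexHull_singleton`/`segment`; or from right to left convexity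
(`Convex.sum_mem`-like, `convex_convexHull`), from left to right `convexHull_min` applied to the set
of all these combinations. -/
theorem hull3 {V : Type*} [AddCommGroup V] [Module ℝ V] (a b c w : V) :
    w ∈ convexHull ℝ {a, b, c} ↔
      ∃ x y z : ℝ, 0 ≤ x ∧ 0 ≤ y ∧ 0 ≤ z ∧ x + y + z = 1 ∧ x • a + y • b + z • c = w := by
  constructor
  · intro hw
    have hsub : convexHull ℝ {a, b, c} ⊆ {w : V | ∃ x y z : ℝ, 0 ≤ x ∧ 0 ≤ y ∧ 0 ≤ z ∧
        x + y + z = 1 ∧ x • a + y • b + z • c = w} := by
      refine convexHull_min ?_ ?_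
      · intro u hu
        rcases hu with rfl | rfl | rfl
        · exact ⟨1, 0, 0, by norm_num, le_rfl, le_rfl, by norm_num, by simp⟩
        · exact ⟨0, 1, 0, le_rfl, by norm_num, le_rfl, by norm_num, by simp⟩
        · exact ⟨0, 0, 1, le_rfl, le_rfl, by norm_num, by norm_num, by simp⟩
      · rintro u ⟨x, y, z, hx, hy, hz, h1, rfl⟩ v ⟨x', y', z', hx', hy', hz', h1', rfl⟩ p q hp hq hpq
        refine ⟨p * x + q * x', p * y + q * y', p * z + q * z', by positivity, by positivity,
          by positivity, ?_, ?_⟩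
        · calc p * x + q * x' + (p * y + q * y') + (p * z + q * z')
              = p * (x + y + z) + q * (x' + y' + z') := by ring
            _ = 1 := by rw [h1, h1', mul_one, mul_one, hpq]
        · simp only [smul_add, add_smul, smul_smul]
          abel
    exact hsub hw
  · rintro ⟨x, y, z, hx, hy, hz, h1, rfl⟩
    have ha : a ∈ convexHull ℝ {a, b, c} := subset_convexHull ℝ _ (by simp)
    have hb : b ∈ convexHull ℝ {a, b, c} := subset_convexHull ℝ _ (by simp)
    have hc : c ∈ convexHull ℝ {a, b, c} := subset_convexHull ℝ _ (by simp)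
    have hcv : Convex ℝ (convexHull ℝ {a, b, c}) := convex_convexHull ℝ _
    have hs := hcv.sum_mem (t := (Finset.univ : Finset (Fin 3))) (w := ![x, y, z])
      (z := ![a, b, c]) (by
        intro i _
        fin_cases i <;> assumption) (by
        rw [Fin.sum_univ_three]
        exact h1) (by
        intro i _
        fin_cases i <;> assumption)
    rw [Fin.sum_univ_three] at hs
    exact hs
-- END row hull3

-- BEGIN row reg_symm
/-- Symmetries of the region. PROOF. `Set.union_comm`, `Set.insert_comm`, `Set.pair_comm`. -/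
theorem reg_symm (a b c d : ℂ) : reg a c b d = reg a b c d ∧ reg d b c a = reg a b c d := by
  have e1 : ({a, c, b} : Set ℂ) = {a, b, c} := by rw [Set.pair_comm c b]
  have e2 : ({c, b, d} : Set ℂ) = {b, c, d} := Set.insert_comm c b {d}
  have e3 : ({d, b, c} : Set ℂ) = {b, c, d} := by
    rw [Set.insert_comm d b, Set.pair_comm d c]
  have e4 : ({b, c, a} : Set ℂ) = {a, b, c} := by
    rw [Set.pair_comm c a, Set.insert_comm b a]
  unfold reg
  refine ⟨by rw [e1, e2], ?_⟩
  rw [e3, e4, Set.union_comm]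
-- END row reg_symm

-- BEGIN row ind_perm
/-- Symmetries of `Ind`. PROOF. Reorder the sums. -/
theorem ind_perm {a b c : ℂ} (h : Ind a b c) : Ind a c b ∧ Ind b a c ∧ Ind c b a := by
  refine ⟨?_, ?_, ?_⟩
  · intro x y z h1 h2
    obtain ⟨p, q, r⟩ := h x z y (by linarith) (by rw [← h2]; abel)
    exact ⟨p, r, q⟩
  · intro x y z h1 h2
    obtain ⟨p, q, r⟩ := h y x z (by linarith) (by rw [← h2]; abel)
    exact ⟨q, p, r⟩
  · intro x y z h1 h2
    obtain ⟨p, q, r⟩ := h z y x (by linarith) (by rw [← h2]; abel)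
    exact ⟨r, q, p⟩
-- END row ind_perm

-- BEGIN row cr_ind
/-- The other independent triples of a configuration. PROOF. `d b c`: from
`s • d = (1 - t) • b + t • c - (1 - s) • a`: multiply a relation `x • d + y • b + z • c = 0` by `s`
and use `ind`: the coefficient of `a` is `- x * (1 - s)`. `a c d` when `t ≠ 1`: eliminate `b`:
`(1 - t) • b = ...`; equivalently: a relation `x • a + y • c + z • d = 0` times `s` gives
`(s x - (1 - s) z) • a + (1 - t) z • b + (s y + t z) • c = 0`, so `z = 0`, then `x = 0`, `y = 0`. -/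
theorem cr_ind {a b c d : ℂ} {s t : ℝ} (h : Cr a b c d s t) :
    Ind d b c ∧ (t ≠ 1 → Ind a c d) ∧ (t ≠ 0 → Ind a b d) := by
  have hs0 := h.s0
  have hs1 := h.s1
  have heq : (1 - s) • a + s • d - ((1 - t) • b + t • c) = 0 := sub_eq_zero.mpr h.eq
  refine ⟨?_, ?_, ?_⟩
  · intro x y z h1 h2
    obtain ⟨e1, e2, e3⟩ := h.ind (-(x * (1 - s))) (x * (1 - t) + s * y) (x * t + s * z)
      (by linear_combination s * h1) (by
        have e : (-(x * (1 - s))) • a + (x * (1 - t) + s * y) • b + (x * t + s * z) • c =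
            s • (x • d + y • b + z • c) -
              x • ((1 - s) • a + s • d - ((1 - t) • b + t • c)) := by module
        rw [e, h2, heq]
        simp)
    have hx : x = 0 := by
      rcases mul_eq_zero.mp (neg_eq_zero.mp e1) with h3 | h3
      · exact h3
      · linarith
    subst hx
    refine ⟨rfl, ?_, ?_⟩
    · have : s * y = 0 := by linarith
      exact (mul_eq_zero.mp this).resolve_left hs0.ne'
    · have : s * z = 0 := by linarith
      exact (mul_eq_zero.mp this).resolve_left hs0.ne'
  · intro ht x y z h1 h2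
    obtain ⟨e1, e2, e3⟩ := h.ind (s * x - (1 - s) * z) ((1 - t) * z) (s * y + t * z)
      (by linear_combination s * h1) (by
        have e : (s * x - (1 - s) * z) • a + ((1 - t) * z) • b + (s * y + t * z) • c =
            s • (x • a + y • c + z • d) -
              z • ((1 - s) • a + s • d - ((1 - t) • b + t • c)) := by module
        rw [e, h2, heq]
        simp)
    have hz : z = 0 := (mul_eq_zero.mp e2).resolve_left (sub_ne_zero.mpr (Ne.symm ht))
    subst hz
    refine ⟨?_, ?_, rfl⟩
    · have : s * x = 0 := by linarith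
      exact (mul_eq_zero.mp this).resolve_left hs0.ne'
    · have : s * y = 0 := by linarith
      exact (mul_eq_zero.mp this).resolve_left hs0.ne'
  · intro ht x y z h1 h2
    obtain ⟨e1, e2, e3⟩ := h.ind (s * x - (1 - s) * z) (s * y + (1 - t) * z) (t * z)
      (by linear_combination s * h1) (by
        have e : (s * x - (1 - s) * z) • a + (s * y + (1 - t) * z) • b + (t * z) • c =
            s • (x • a + y • b + z • d) -
              z • ((1 - s) • a + s • d - ((1 - t) • b + t • c)) := by module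
        rw [e, h2, heq]
        simp)
    have hz : z = 0 := (mul_eq_zero.mp e3).resolve_left ht
    subst hz
    refine ⟨?_, ?_, rfl⟩
    · have : s * x = 0 := by linarith
      exact (mul_eq_zero.mp this).resolve_left hs0.ne'
    · have : s * y = 0 := by linarith
      exact (mul_eq_zero.mp this).resolve_left hs0.ne'
-- END row cr_ind

-- BEGIN row cr_symm
/-- Symmetries of a configuration. PROOF. `ind_perm`, `cr_ind`; the equations reorder. -/
theorem cr_symm {a b c d : ℂ} {s t : ℝ} (h : Cr a b c d s t) :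
    Cr a c b d s (1 - t) ∧ Cr d b c a (1 - s) t := by
  refine ⟨⟨(ind_perm h.ind).1, h.s0, h.s1, ?_⟩, ⟨(cr_ind h).1, by linarith [h.s1],
    by linarith [h.s0], ?_⟩⟩
  · rw [h.eq, sub_sub_cancel, add_comm]
  · rw [sub_sub_cancel, add_comm, h.eq]
-- END row cr_symm

-- BEGIN row opp
/-- Opposite sides give a configuration. PROOF. `AffineSubspace.SOppSide.exists_sbtw` gives `z` on
the line, strictly between `a` and `d`; `z = lineMap b c t` (`AffineSubspace` span of two points,
`AffineMap.lineMap` membership), `z = lineMap a d s` with `0 < s < 1` (`Sbtw`).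
`Ind`: `a` is not on the line (`SOppSide.left_notMem` or similar) and `b ≠ c`: if `x • a + y • b +
z • c = 0` with `x ≠ 0` then `a = lineMap b c _` is on the line; so `x = 0`, `z = - y`,
`y • (b - c) = 0`. -/
theorem opp {a b c d : ℂ} (hbc : b ≠ c) (h : (line[ℝ, b, c]).SOppSide a d) :
    ∃ s t : ℝ, Cr a b c d s t := by
  obtain ⟨z, hz, hb⟩ := h.exists_sbtw
  obtain ⟨t, rfl⟩ := mem_affineSpan_pair_iff_exists_lineMap_eq.1 hz
  obtain ⟨⟨s, hs, hs'⟩, hza, hzd⟩ := hb
  have ha := h.left_notMem
  have s0 : 0 < s := by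
    rcases hs.1.lt_or_eq with h0 | h0
    · exact h0
    · exact absurd (by rw [← hs', ← h0, AffineMap.lineMap_apply_zero]) hza
  have s1 : s < 1 := by
    rcases hs.2.lt_or_eq with h0 | h0
    · exact h0
    · exact absurd (by rw [← hs', h0, AffineMap.lineMap_apply_one]) hzd
  refine ⟨s, t, ⟨?_, s0, s1, ?_⟩⟩
  · intro x y z h1 h2
    have hx : x = 0 := by
      by_contra hx
      apply ha
      refine mem_affineSpan_pair_iff_exists_lineMap_eq.2 ⟨-z / x, ?_⟩
      rw [AffineMap.lineMap_apply_module]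
      have h3 : (x : ℂ) ≠ 0 := by exact_mod_cast hx
      have h4 : (x : ℂ) + y + z = 0 := by exact_mod_cast h1
      simp only [Complex.real_smul] at h2 ⊢
      push_cast
      field_simp
      linear_combination b * h4 - h2
    subst hx
    have h3 : z = -y := by linarith
    subst h3
    have h4 : y • (b - c) = 0 := by
      rw [zero_smul, zero_add, neg_smul] at h2
      rw [smul_sub, sub_eq_add_neg]
      exact h2
    have h5 : y = 0 := by
      rcases smul_eq_zero.1 h4 with h5 | h5
      · exact h5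
      · exact absurd (sub_eq_zero.1 h5) hbc
    subst h5
    exact ⟨rfl, rfl, by simp⟩
  · rw [AffineMap.lineMap_apply_module, AffineMap.lineMap_apply_module] at hs'
    exact hs'
-- END row opp

-- BEGIN row opp_of
/-- The converse. PROOF. The point `z = (1 - t) • b + t • c` is on the line, strictly between `a`
and `d` (`Sbtw.sOppSide_of_notMem_of_mem` or similar; else `AffineSubspace.sOppSide_iff_exists_left`
or `AffineSubspace.sOppSide_of_notMem_of_mem`), `a` is not on the line by `ind`. -/
theorem opp_of {a b c d : ℂ} {s t : ℝ} (h : Cr a b c d s t) :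
    (line[ℝ, b, c]).SOppSide a d := by
  have ha : a ∉ line[ℝ, b, c] := by
    intro ha
    obtain ⟨r, hr⟩ := mem_affineSpan_pair_iff_exists_lineMap_eq.1 ha
    rw [AffineMap.lineMap_apply_module] at hr
    have h1 := h.ind (-1) (1 - r) r (by ring) (by
      rw [← hr]
      simp only [Complex.real_smul]
      push_cast
      ring)
    linarith [h1.1]
  have hz : AffineMap.lineMap b c t ∈ line[ℝ, b, c] := AffineMap.lineMap_mem_affineSpan_pair _ _ _
  have he : AffineMap.lineMap a d s = AffineMap.lineMap b c t := by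
    rw [AffineMap.lineMap_apply_module, AffineMap.lineMap_apply_module]
    exact h.eq
  have had : a ≠ d := by
    rintro rfl
    apply ha
    rw [← he, AffineMap.lineMap_same_apply] at hz
    exact hz
  refine Sbtw.sOppSide_of_notMem_of_mem (y := AffineMap.lineMap b c t) ?_ ha hz
  rw [← he, sbtw_lineMap_iff]
  exact ⟨had, h.s0, h.s1⟩
-- END row opp_of

-- BEGIN row expo
/-- A point of a set where a real linear functional is strictly larger than at the others is an
extreme point of the hull.
PROOF. `convexHull_min` for the set `{y | y = w ∨ f y < f w}`, which is convex and contains `S`;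
then if `w` is in the open segment of `y, z` with `y, z` in the hull, `f w` is a proper average of
`f y, f z ≤ f w`, so `f y = f z = f w` and `y = z = w`. -/
theorem expo (S : Set ℂ) (w : ℂ) (hw : w ∈ S) (f : ℂ →ₗ[ℝ] ℝ)
    (h : ∀ u ∈ S, u ≠ w → f u < f w) : w ∈ extremePoints ℝ (convexHull ℝ S) := by
  have hconv : Convex ℝ {y : ℂ | y = w ∨ f y < f w} := by
    intro y hy z hz a b ha hb hab
    simp only [mem_ofPred_eq] at hy hz ⊢
    have hfe : f (a • y + b • z) = a * f y + b * f z := by
      rw [map_add, map_smul, map_smul, smul_eq_mul, smul_eq_mul]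
    rcases eq_or_lt_of_le ha with h0 | h0
    · have hb1 : b = 1 := by linarith
      rw [← h0, hb1, zero_smul, one_smul, zero_add]
      exact hz
    rcases eq_or_lt_of_le hb with h1 | h1
    · have ha1 : a = 1 := by linarith
      rw [← h1, ha1, zero_smul, one_smul, add_zero]
      exact hy
    rcases hy with rfl | hy
    · rcases hz with rfl | hz
      · left
        rw [← add_smul, hab, one_smul]
      · right
        rw [hfe]
        have e2 : f y = a * f y + b * f y := by rw [← add_mul, hab, one_mul]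
        nlinarith [mul_lt_mul_of_pos_left hz h1]
    · right
      rw [hfe]
      have e2 : f w = a * f w + b * f w := by rw [← add_mul, hab, one_mul]
      have hz' : f z ≤ f w := by
        rcases hz with rfl | hz
        · exact le_refl _
        · exact hz.le
      nlinarith [mul_lt_mul_of_pos_left hy h0, mul_le_mul_of_nonneg_left hz' hb]
  have hsub : convexHull ℝ S ⊆ {y : ℂ | y = w ∨ f y < f w} := by
    refine convexHull_min ?_ hconv
    intro u hu
    by_cases huw : u = w
    · exact Or.inl huw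
    · exact Or.inr (h u hu huw)
  have hle : ∀ y ∈ convexHull ℝ S, f y ≤ f w := by
    intro y hy
    rcases hsub hy with rfl | h1
    · exact le_refl _
    · exact h1.le
  refine mem_extremePoints.2 ⟨subset_convexHull ℝ S hw, ?_⟩
  intro y hy z hz hseg
  obtain ⟨a, b, ha, hb, hab, hw'⟩ := hseg
  have hfe : f w = a * f y + b * f z := by
    rw [← hw', map_add, map_smul, map_smul, smul_eq_mul, smul_eq_mul]
  have e2 : f w = a * f w + b * f w := by rw [← add_mul, hab, one_mul]
  constructor
  · rcases hsub hy with h1 | h1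
    · exact h1
    · exfalso
      nlinarith [mul_lt_mul_of_pos_left h1 ha, mul_le_mul_of_nonneg_left (hle z hz) hb.le]
  · rcases hsub hz with h1 | h1
    · exact h1
    · exfalso
      nlinarith [mul_lt_mul_of_pos_left h1 hb, mul_le_mul_of_nonneg_left (hle y hy) ha.le]
-- END row expo

-- BEGIN row func
/-- The barycentric functional. PROOF. `f u = cr (c - b) u` times a scalar, with
`cr x y = x.re * y.im - x.im * y.re`; `Ind a b c` makes `cr (c - b) (a - b)` non-zero (if it is zero
then `a - b` is a real multiple of `c - b`, as `c ≠ b`: a relation). -/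
theorem func {a b c : ℂ} (h : Ind a b c) :
    ∃ f : ℂ →ₗ[ℝ] ℝ, f a = f b + 1 ∧ f c = f b := by
  obtain ⟨p, hp⟩ : ∃ p : ℝ, p = c.re - b.re := ⟨_, rfl⟩
  obtain ⟨q, hq⟩ : ∃ q : ℝ, q = c.im - b.im := ⟨_, rfl⟩
  obtain ⟨A, hA⟩ : ∃ A : ℝ, A = a.re - b.re := ⟨_, rfl⟩
  obtain ⟨B, hB⟩ : ∃ B : ℝ, B = a.im - b.im := ⟨_, rfl⟩
  have hD : p * B - q * A ≠ 0 := by
    intro hD
    have h1 := h (p ^ 2 + q ^ 2) (-(p ^ 2 + q ^ 2) + (p * A + q * B)) (-(p * A + q * B))
      (by ring) (by
        apply Complex.ext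
        · simp only [Complex.add_re, Complex.real_smul, Complex.mul_re, Complex.ofReal_re,
            Complex.ofReal_im, zero_mul, sub_zero, Complex.zero_re]
          have e : (p ^ 2 + q ^ 2) * a.re + (-(p ^ 2 + q ^ 2) + (p * A + q * B)) * b.re +
              -(p * A + q * B) * c.re =
              (p ^ 2 + q ^ 2) * A - (p * A + q * B) * p := by
            rw [hp, hA]
            ring
          rw [e]
          linear_combination (-q) * hD
        · simp only [Complex.add_im, Complex.real_smul, Complex.mul_im, Complex.ofReal_re,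
            Complex.ofReal_im, zero_mul, add_zero, Complex.zero_im]
          have e : (p ^ 2 + q ^ 2) * a.im + (-(p ^ 2 + q ^ 2) + (p * A + q * B)) * b.im +
              -(p * A + q * B) * c.im =
              (p ^ 2 + q ^ 2) * B - (p * A + q * B) * q := by
            rw [hq, hB]
            ring
          rw [e]
          linear_combination p * hD)
    have hp0 : p = 0 := by nlinarith [sq_nonneg p, sq_nonneg q, h1.1]
    have hq0 : q = 0 := by nlinarith [sq_nonneg p, sq_nonneg q, h1.1]
    have hbc : c = b := by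
      apply Complex.ext
      · linarith
      · linarith
    have h2 := h 0 1 (-1) (by norm_num) (by rw [hbc]; module)
    exact one_ne_zero h2.2.1
  refine ⟨(1 / (p * B - q * A)) • (p • Complex.imLm - q • Complex.reLm), ?_, ?_⟩
  · have e : p * a.im - q * a.re = p * b.im - q * b.re + (p * B - q * A) := by
      rw [hA, hB]
      ring
    simp only [LinearMap.smul_apply, LinearMap.sub_apply, Complex.imLm_coe, Complex.reLm_coe,
      smul_eq_mul]
    rw [e]
    field_simp
  · have e : p * c.im - q * c.re = p * b.im - q * b.re := by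
      rw [hp, hq]
      ring
    simp only [LinearMap.smul_apply, LinearMap.sub_apply, Complex.imLm_coe, Complex.reLm_coe,
      smul_eq_mul]
    rw [e]
-- END row func

-- BEGIN row ext3
/-- Extreme points of a triangle. PROOF. `⊆` is `extremePoints_convexHull_subset`; `⊇`: `expo` with
`func` for the three orders of the letters (`ind_perm`). -/
theorem ext3 {a b c : ℂ} (h : Ind a b c) :
    extremePoints ℝ (convexHull ℝ {a, b, c}) = {a, b, c} := by
  refine Set.Subset.antisymm extremePoints_convexHull_subset ?_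
  rintro w (rfl | rfl | rfl)
  · obtain ⟨f, h1, h2⟩ := func h
    refine expo _ _ (by simp) f ?_
    rintro u (rfl | rfl | rfl) hu
    · exact absurd rfl hu
    · linarith
    · linarith
  · obtain ⟨f, h1, h2⟩ := func (ind_perm h).2.1
    refine expo _ _ (by simp) f ?_
    rintro u (rfl | rfl | rfl) hu
    · linarith
    · exact absurd rfl hu
    · linarith
  · obtain ⟨f, h1, h2⟩ := func (ind_perm h).2.2
    refine expo _ _ (by simp) f ?_
    rintro u (rfl | rfl | rfl) hu
    · linarith
    · linarith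
    · exact absurd rfl hu
-- END row ext3

-- BEGIN row ext4
private theorem ext4_set (a b c d : ℂ) :
    convexHull ℝ (reg a b c d) = convexHull ℝ {a, b, c, d} := by
  apply subset_antisymm
  · refine convexHull_min (union_subset (convexHull_mono ?_) (convexHull_mono ?_))
      (convex_convexHull _ _)
    · intro x hx
      simp only [mem_insert_iff, mem_singleton_iff] at hx ⊢
      tauto
    · intro x hx
      simp only [mem_insert_iff, mem_singleton_iff] at hx ⊢
      tauto
  · refine convexHull_mono ?_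
    intro x hx
    simp only [mem_insert_iff, mem_singleton_iff] at hx
    rcases hx with rfl | rfl | rfl | rfl
    · exact Or.inl (subset_convexHull _ _ (by simp))
    · exact Or.inl (subset_convexHull _ _ (by simp))
    · exact Or.inl (subset_convexHull _ _ (by simp))
    · exact Or.inr (subset_convexHull _ _ (by simp))

private theorem ext4_a {a b c d : ℂ} {s t : ℝ} (h : Cr a b c d s t) :
    a ∈ extremePoints ℝ (convexHull ℝ {a, b, c, d}) := by
  obtain ⟨f, fa, fc⟩ := func h.ind
  refine expo _ a (by simp) f fun u hu hua => ?_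
  have e := congrArg f h.eq
  simp only [map_add, map_smul, smul_eq_mul] at e
  have s0 := h.s0
  have s1 := h.s1
  simp only [mem_insert_iff, mem_singleton_iff] at hu
  rcases hu with hu | hu | hu | hu
  · exact absurd hu hua
  · rw [hu]; linarith
  · rw [hu]; linarith
  · rw [hu]
    by_contra hle
    push Not at hle
    have h1 : s * f a ≤ s * f d := mul_le_mul_of_nonneg_left hle s0.le
    rw [fc] at e
    nlinarith
-- helper `b`
private theorem ext4_b {a b c d : ℂ} {s t : ℝ} (h : Cr a b c d s t) (h0 : 0 < t) :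
    b ∈ extremePoints ℝ (convexHull ℝ {a, b, c, d}) := by
  obtain ⟨f, fb, fd⟩ := func (ind_perm ((cr_ind h).2.2 h0.ne')).2.1
  refine expo _ b (by simp) f fun u hu hub => ?_
  have e := congrArg f h.eq
  simp only [map_add, map_smul, smul_eq_mul] at e
  have s0 := h.s0
  have s1 := h.s1
  simp only [mem_insert_iff, mem_singleton_iff] at hu
  rcases hu with hu | hu | hu | hu
  · rw [hu]; linarith
  · exact absurd hu hub
  · rw [hu]
    by_contra hle
    push Not at hle
    have h1 : t * f b ≤ t * f c := mul_le_mul_of_nonneg_left hle h0.le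
    rw [fd] at e
    nlinarith
  · rw [hu]; linarith

/-- Extreme points of a convex quadrilateral. PROOF. `⊆`: the hull of the region is the hull of the
four points, then `extremePoints_convexHull_subset`. `⊇`: `expo` with the set of the four points:
for `a` the functional of `func` for `Ind a b c`: it is `k` at `b, c` and `k + 1` at `a`, and at `d`
it is `k - (1 - s) / s` by `eq`; for `d` its negative; for `b` the functional with `f b = f a + 1`,
`f d = f a` (`Ind a b d` of `cr_ind`, in the right order): at `c` it is `f a - (1 - t) / t`;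
for `c` its negative. -/
theorem ext4 {a b c d : ℂ} {s t : ℝ} (h : Cr a b c d s t) (h0 : 0 < t) (h1 : t < 1) :
    extremePoints ℝ (convexHull ℝ (reg a b c d)) = {a, b, c, d} := by
  rw [ext4_set]
  apply subset_antisymm extremePoints_convexHull_subset
  intro x hx
  simp only [mem_insert_iff, mem_singleton_iff] at hx
  rcases hx with rfl | rfl | rfl | rfl
  · exact ext4_a h
  · exact ext4_b h h0
  · have h2 := ext4_b (cr_symm h).1 (by linarith)
    have e : ({a, x, b, d} : Set ℂ) = {a, b, x, d} := by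
      ext y; simp only [mem_insert_iff, mem_singleton_iff]; tauto
    rwa [e] at h2
  · have h2 := ext4_a (cr_symm h).2
    have e : ({x, b, c, a} : Set ℂ) = {a, b, c, x} := by
      ext y; simp only [mem_insert_iff, mem_singleton_iff]; tauto
    rwa [e] at h2
-- END row ext4

-- BEGIN row reg_conv
/-- The region is convex if `0 ≤ t ≤ 1`. PROOF. It is the hull of the four points: let
`w = x • a + y • b + z • c + u • d` with weights `≥ 0` and sum `1`; if `x / (1 - s) ≥ u / s`, replace
`u • d + (u (1 - s) / s) • a` by `(u / s) • ((1 - t) • b + t • c)`: then `w` is a combination of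
`a, b, c`; else of `d, b, c`. (Weights of a point of the hull of four points: `hull3` and
`convexHull_insert`, or show that the set of these combinations is convex; or show directly that the
union is convex.) -/
theorem reg_conv {a b c d : ℂ} {s t : ℝ} (h : Cr a b c d s t) (h0 : 0 ≤ t) (h1 : t ≤ 1) :
    Convex ℝ (reg a b c d) := by
  have hs0 := h.s0
  have hs1 := h.s1
  have hs1' : 0 < 1 - s := by linarith
  have heq : (1 - s) • a + s • d - ((1 - t) • b + t • c) = 0 := sub_eq_zero.mpr h.eq
  have hQ : reg a b c d = {w | ∃ x y z u : ℝ, 0 ≤ x ∧ 0 ≤ y ∧ 0 ≤ z ∧ 0 ≤ u ∧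
      x + y + z + u = 1 ∧ x • a + y • b + z • c + u • d = w} := by
    apply Set.Subset.antisymm
    · rintro w (hw | hw)
      · obtain ⟨x, y, z, hx, hy, hz, h2, h3⟩ := (hull3 a b c w).mp hw
        exact ⟨x, y, z, 0, hx, hy, hz, le_refl 0, by linarith, by rw [← h3]; module⟩
      · obtain ⟨x, y, z, hx, hy, hz, h2, h3⟩ := (hull3 b c d w).mp hw
        exact ⟨0, x, y, z, le_refl 0, hx, hy, hz, by linarith, by rw [← h3]; module⟩
    · rintro w ⟨x, y, z, u, hx, hy, hz, hu, h2, h3⟩
      rcases le_total (u * (1 - s)) (x * s) with hc | hc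
      · left
        rw [hull3]
        have hk : 0 ≤ u / s := div_nonneg hu hs0.le
        have hks : u / s * s = u := div_mul_cancel₀ u hs0.ne'
        refine ⟨x - u / s * (1 - s), y + u / s * (1 - t), z + u / s * t, ?_, ?_, ?_, ?_, ?_⟩
        · have : u / s * (1 - s) * s ≤ x * s := by
            calc u / s * (1 - s) * s = u / s * s * (1 - s) := by ring
              _ = u * (1 - s) := by rw [hks]
              _ ≤ x * s := hc
          have := le_of_mul_le_mul_right this hs0
          linarith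
        · have : 0 ≤ u / s * (1 - t) := mul_nonneg hk (by linarith)
          linarith
        · have : 0 ≤ u / s * t := mul_nonneg hk h0
          linarith
        · linear_combination h2 + hks
        · have e : (x - u / s * (1 - s)) • a + (y + u / s * (1 - t)) • b + (z + u / s * t) • c =
              x • a + y • b + z • c + (u / s * s) • d -
                (u / s) • ((1 - s) • a + s • d - ((1 - t) • b + t • c)) := by module
          rw [e, heq, hks, h3]
          simp
      · right
        rw [hull3]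
        have hk : 0 ≤ x / (1 - s) := div_nonneg hx hs1'.le
        have hks : x / (1 - s) * (1 - s) = x := div_mul_cancel₀ x hs1'.ne'
        refine ⟨y + x / (1 - s) * (1 - t), z + x / (1 - s) * t, u - x / (1 - s) * s,
          ?_, ?_, ?_, ?_, ?_⟩
        · have : 0 ≤ x / (1 - s) * (1 - t) := mul_nonneg hk (by linarith)
          linarith
        · have : 0 ≤ x / (1 - s) * t := mul_nonneg hk h0
          linarith
        · have : x / (1 - s) * s * (1 - s) ≤ u * (1 - s) := by
            calc x / (1 - s) * s * (1 - s) = x / (1 - s) * (1 - s) * s := by ring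
              _ = x * s := by rw [hks]
              _ ≤ u * (1 - s) := hc
          have := le_of_mul_le_mul_right this hs1'
          linarith
        · linear_combination h2 + hks
        · have e : (y + x / (1 - s) * (1 - t)) • b + (z + x / (1 - s) * t) • c +
              (u - x / (1 - s) * s) • d =
              (x / (1 - s) * (1 - s)) • a + y • b + z • c + u • d -
                (x / (1 - s)) • ((1 - s) • a + s • d - ((1 - t) • b + t • c)) := by module
          rw [e, heq, hks, h3]
          simp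
  rw [hQ]
  rintro w ⟨x, y, z, u, hx, hy, hz, hu, h2, h3⟩ w' ⟨x', y', z', u', hx', hy', hz', hu', h2', h3'⟩
    α β hα hβ hαβ
  refine ⟨α * x + β * x', α * y + β * y', α * z + β * z', α * u + β * u', by positivity,
    by positivity, by positivity, by positivity, ?_, ?_⟩
  · linear_combination α * h2 + β * h2' + hαβ
  · rw [← h3, ← h3']
    module
-- END row reg_conv

-- BEGIN row hull_dent
/-- If `t ≤ 0` the hull of the region is the triangle `a c d`. PROOF. `b` is in the triangle:
`(1 - t) • b = (1 - s) • a + s • d - t • c` with weights `≥ 0` and sum `1 - t`. So the region is in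
the hull of `a, c, d` and contains these three points. -/
theorem hull_dent {a b c d : ℂ} {s t : ℝ} (h : Cr a b c d s t) (h0 : t ≤ 0) :
    convexHull ℝ (reg a b c d) = convexHull ℝ {a, c, d} := by
  have hn : (0 : ℝ) < 1 - t := by linarith
  have hs0 := h.s0
  have hs1 := h.s1
  have hb : b ∈ convexHull ℝ ({a, c, d} : Set ℂ) := by
    refine (hull3 a c d b).2 ⟨(1 - s) / (1 - t), -t / (1 - t), s / (1 - t),
      div_nonneg (by linarith) hn.le, div_nonneg (by linarith) hn.le,
      div_nonneg hs0.le hn.le, ?_, ?_⟩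
    · field_simp
      ring
    · have h1 : (1 - t) • b = (1 - s) • a + s • d - t • c := by
        rw [h.eq]
        abel
      have h2 : b = (1 - t)⁻¹ • ((1 - t) • b) := by
        rw [smul_smul, inv_mul_cancel₀ hn.ne', one_smul]
      rw [h1] at h2
      rw [h2]
      module
  have ha : a ∈ convexHull ℝ ({a, c, d} : Set ℂ) := subset_convexHull ℝ _ (by simp)
  have hc : c ∈ convexHull ℝ ({a, c, d} : Set ℂ) := subset_convexHull ℝ _ (by simp)
  have hd : d ∈ convexHull ℝ ({a, c, d} : Set ℂ) := subset_convexHull ℝ _ (by simp)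
  apply Set.Subset.antisymm
  · refine convexHull_min (Set.union_subset
      (convexHull_min ?_ (convex_convexHull ℝ _)) (convexHull_min ?_ (convex_convexHull ℝ _)))
      (convex_convexHull ℝ _)
    · intro x hx
      simp only [Set.mem_insert_iff, Set.mem_singleton_iff] at hx
      rcases hx with rfl | rfl | rfl
      · exact ha
      · exact hb
      · exact hc
    · intro x hx
      simp only [Set.mem_insert_iff, Set.mem_singleton_iff] at hx
      rcases hx with rfl | rfl | rfl
      · exact hb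
      · exact hc
      · exact hd
  · refine convexHull_mono ?_
    intro x hx
    simp only [Set.mem_insert_iff, Set.mem_singleton_iff] at hx
    rcases hx with rfl | rfl | rfl
    · exact Or.inl (subset_convexHull ℝ _ (by simp))
    · exact Or.inl (subset_convexHull ℝ _ (by simp))
    · exact Or.inr (subset_convexHull ℝ _ (by simp))
-- END row hull_dent

-- BEGIN row dent_mem
private theorem dent_mem_tri {a b c d : ℂ} {s t : ℝ} (h : Cr a b c d s t) (h0 : t < 0)
    (x y z : ℝ) (hz : 0 ≤ z) (h1 : x + y + z = 1) :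
    x • a + y • c + z • d ∈ convexHull ℝ ({a, b, c} : Set ℂ) ↔
      (z * (1 - s) ≤ x * s ∧ z * (-t) ≤ y * s) := by
  have hn : (0 : ℝ) < 1 - t := by linarith
  have hs0 := h.s0
  have hs1 := h.s1
  have hind : Ind a c d := (cr_ind h).2.1 (by linarith)
  have e := h.eq
  simp only [Complex.real_smul] at e
  rw [hull3]
  constructor
  · rintro ⟨x', y', z', hx', hy', hz', hs', he⟩
    simp only [Complex.real_smul] at he
    obtain ⟨k1, k2, k3⟩ := hind ((1 - t) * x' + y' * (1 - s) - (1 - t) * x)
      ((1 - t) * z' - y' * t - (1 - t) * y) (y' * s - (1 - t) * z)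
      (by linear_combination (1 - t) * hs' - (1 - t) * h1)
      (by
        simp only [Complex.real_smul]
        push_cast at e ⊢
        linear_combination (1 - (t : ℂ)) * he + (y' : ℂ) * e)
    have m1 : (1 - t) * (x * s - z * (1 - s) - x' * s) = 0 := by
      linear_combination (-s) * k1 + (1 - s) * k3
    have m2 : (1 - t) * (y * s - z * (-t) - z' * s) = 0 := by
      linear_combination (-s) * k2 - t * k3
    have m3 : x * s - z * (1 - s) - x' * s = 0 := by
      rcases mul_eq_zero.1 m1 with m | m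
      · exact absurd m hn.ne'
      · exact m
    have m4 : y * s - z * (-t) - z' * s = 0 := by
      rcases mul_eq_zero.1 m2 with m | m
      · exact absurd m hn.ne'
      · exact m
    have m5 : 0 ≤ x' * s := mul_nonneg hx' hs0.le
    have m6 : 0 ≤ z' * s := mul_nonneg hz' hs0.le
    constructor <;> linarith
  · rintro ⟨p, q⟩
    obtain ⟨r, hr⟩ : ∃ r : ℝ, r * s = z := ⟨z / s, div_mul_cancel₀ z hs0.ne'⟩
    have hr0 : 0 ≤ r := by
      by_contra hneg
      push Not at hneg
      have : r * s < 0 := mul_neg_of_neg_of_pos hneg hs0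
      linarith
    refine ⟨x - r * (1 - s), r * (1 - t), y + r * t, ?_, mul_nonneg hr0 hn.le, ?_, ?_, ?_⟩
    · have : (r * (1 - s)) * s ≤ x * s := by
        have e1 : (r * (1 - s)) * s = z * (1 - s) := by rw [← hr]; ring
        rw [e1]
        exact p
      have := le_of_mul_le_mul_right this hs0
      linarith
    · have : (r * (-t)) * s ≤ y * s := by
        have e1 : (r * (-t)) * s = z * (-t) := by rw [← hr]; ring
        rw [e1]
        exact q
      have := le_of_mul_le_mul_right this hs0
      linarith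
    · linear_combination h1 + hr
    · have hrc : (r : ℂ) * s = z := by exact_mod_cast hr
      simp only [Complex.real_smul]
      push_cast at e ⊢
      linear_combination (-(r : ℂ)) * e + d * hrc

/-- The region in coordinates when `t < 0`: the point with weights `x, y, z` at `a, c, d` is in the
region iff `y / (- t)` is at least the smaller of `x / (1 - s)` and `z / s`.
PROOF. Write `b = ((1 - s) • a + s • d - t • c) / (1 - t)`. A point `x' • a + y' • b + z' • c` of
the triangle `a b c` has weights `x' + y' (1 - s) / (1 - t)`, `z' - y' t / (1 - t)`, `y' s / (1 - t)`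
at `a, c, d`; weights are unique by `Ind a c d` (`cr_ind`). So it lies in the triangle `a b c` iff
`x / (1 - s) ≥ z / s` and `y / (- t) ≥ z / s` (take `y' = z (1 - t) / s`, the other two are the
remainders); the same for the triangle `b c d` with `a, d` exchanged. Products replace the
quotients in the statement. -/
theorem dent_mem {a b c d : ℂ} {s t : ℝ} (h : Cr a b c d s t) (h0 : t < 0) (x y z : ℝ)
    (hx : 0 ≤ x) (hy : 0 ≤ y) (hz : 0 ≤ z) (h1 : x + y + z = 1) :
    x • a + y • c + z • d ∈ reg a b c d ↔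
      (z * (1 - s) ≤ x * s ∧ z * (-t) ≤ y * s) ∨
      (x * s ≤ z * (1 - s) ∧ x * (-t) ≤ y * (1 - s)) := by
  have e1 : x • a + y • c + z • d = z • d + y • c + x • a := by abel
  have e2 : ({b, c, d} : Set ℂ) = {d, b, c} := by
    ext u
    simp only [Set.mem_insert_iff, Set.mem_singleton_iff]
    tauto
  have h2 := dent_mem_tri (cr_symm h).2 h0 z y x hx (by linarith)
  rw [sub_sub_cancel] at h2
  rw [← e2, ← e1] at h2
  unfold reg
  rw [Set.mem_union, dent_mem_tri h h0 x y z hz h1, h2]
-- END row dent_mem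

-- BEGIN row dent_out
/-- If `t < 0` the open segment `a d` misses the region. PROOF. `dent_mem` with `y = 0`,
`x, z > 0`. -/
theorem dent_out {a b c d : ℂ} {s t : ℝ} (h : Cr a b c d s t) (h0 : t < 0) (y : ℂ)
    (hy : y ∈ openSegment ℝ a d) : y ∉ reg a b c d := by
  obtain ⟨p, q, hp, hq, hpq, rfl⟩ := hy
  intro hmem
  have e1 : p • a + q • d = p • a + (0 : ℝ) • c + q • d := by
    rw [zero_smul, add_zero]
  rw [e1, dent_mem h h0 p 0 q hp.le le_rfl hq.le (by linarith)] at hmem
  rcases hmem with ⟨_, h2⟩ | ⟨_, h2⟩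
  · have := mul_pos hq (neg_pos.2 h0)
    rw [zero_mul] at h2
    linarith
  · have := mul_pos hp (neg_pos.2 h0)
    rw [zero_mul] at h2
    linarith
-- END row dent_out

-- BEGIN row side_in
/-- The sides `a c` and `c d` are in the region. PROOF. Two points of one of the two triangles
(`segment_subset_convexHull`, `openSegment_subset_segment`). -/
theorem side_in (a b c d : ℂ) :
    openSegment ℝ a c ⊆ reg a b c d ∧ openSegment ℝ c d ⊆ reg a b c d := by
  constructor
  · intro y hy
    left
    exact segment_subset_convexHull (by simp) (by simp) (openSegment_subset_segment ℝ a c hy)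
  · intro y hy
    right
    exact segment_subset_convexHull (by simp) (by simp) (openSegment_subset_segment ℝ c d hy)
-- END row side_in

-- BEGIN row uniq
private theorem uniq_one {a b b' c d : ℂ} {s t s' t' : ℝ} (h : Cr a b c d s t)
    (h' : Cr a b' c d s' t') (h0 : t < 0) (h0' : t' < 0) (hr : reg a b c d = reg a b' c d) :
    (1 - s) * (-t') ≤ (-t) * (1 - s') := by
  have hs0 := h.s0
  have hs1 := h.s1
  have hs0' := h'.s0
  have hs1' := h'.s1
  have hn : 0 < 1 - t := by linarith
  obtain ⟨r, hrd⟩ : ∃ r : ℝ, r = 1 - s' := ⟨_, rfl⟩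
  have hr0 : 0 < r := by linarith
  have hr1 : r < 1 := by linarith
  obtain ⟨ε, hεd⟩ : ∃ ε : ℝ, ε = r / (3 * (1 - t)) := ⟨_, rfl⟩
  have hε0 : 0 < ε := by rw [hεd]; positivity
  have hεn : ε * (1 - t) = r / 3 := by rw [hεd]; field_simp
  have hεt : 0 < ε * (-t) := mul_pos hε0 (by linarith)
  have hεs : 0 < ε * s := mul_pos hε0 hs0
  have hεs1 : 0 < ε * (1 - s) := mul_pos hε0 (by linarith)
  have hε3 : ε < r / 3 := by nlinarith
  have hsum : ε * (1 - s) + ε * (-t) + (1 - ε * (1 - t) + ε * s) = 1 := by ring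
  have hz : 0 ≤ 1 - ε * (1 - t) + ε * s := by rw [hεn]; linarith
  have hmem : (ε * (1 - s)) • a + (ε * (-t)) • c + (1 - ε * (1 - t) + ε * s) • d ∈ reg a b c d := by
    refine Or.inr ((hull3 b c d _).2 ⟨ε * (1 - t), 0, 1 - ε * (1 - t), ?_, le_refl _, ?_, by ring, ?_⟩)
    · rw [hεn]; linarith
    · rw [hεn]; linarith
    · have e : ε • ((1 - t) • b) = ε • ((1 - s) • a + s • d - t • c) := by
        rw [h.eq, add_sub_cancel_right]
      rw [mul_smul, e]
      module
  rw [hr] at hmem
  rcases (dent_mem h' h0' _ _ _ hεs1.le hεt.le hz hsum).1 hmem with ⟨h1, _⟩ | ⟨_, h2⟩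
  · exfalso
    rw [← hrd, hεn] at h1
    have h3 : ε * (1 - s) * s' ≤ ε := by
      have : (1 - s) * s' ≤ 1 := by nlinarith
      nlinarith
    have h4 : (1 - r / 3) * r ≤ (1 - r / 3 + ε * s) * r :=
      mul_le_mul_of_nonneg_right (by linarith) hr0.le
    nlinarith
  · have h3 : ε * ((1 - s) * (-t')) ≤ ε * ((-t) * (1 - s')) := by linarith
    exact le_of_mul_le_mul_left h3 hε0

/-- The dent is determined by the region. PROOF. Write `n = 1 - t`, `n' = 1 - t'`. The weights of
`b` at `a, c, d` are `((1 - s) / n, - t / n, s / n)`, those of `b'` are `((1 - s') / n', ...)`.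
Apply `dent_mem` to the point `(1 - e) • d + e • b` of the region of `b` (it is in the triangle
`b c d`), which is in the region of `b'`: weights `x = e (1 - s) / n`, `y = e (- t) / n`,
`z = 1 - e + e s / n`; for small `e > 0` the first alternative fails (`z (1 - s') ≤ x s'` is false),
so `x (- t') ≤ y (1 - s')`, that is `(1 - s) (- t') ≤ (- t) (1 - s')`. By exchanging `b, b'`
equality: `(1 - s) (- t') = (- t) (1 - s')`. With the point `(1 - e) • a + e • b`:
`s (- t') = (- t) s'`. Adding: `t = t'`, so `s = s'`, so `b = b'` by `eq`. -/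
theorem uniq {a b b' c d : ℂ} {s t s' t' : ℝ} (h : Cr a b c d s t) (h' : Cr a b' c d s' t')
    (h0 : t < 0) (h0' : t' < 0) (hr : reg a b c d = reg a b' c d) : b = b' := by
  have k1 := uniq_one h h' h0 h0' hr
  have k2 := uniq_one h' h h0' h0 hr.symm
  have hr2 : reg d b c a = reg d b' c a := by
    rw [(reg_symm a b c d).2, (reg_symm a b' c d).2, hr]
  have k3 := uniq_one (cr_symm h).2 (cr_symm h').2 h0 h0' hr2
  have k4 := uniq_one (cr_symm h').2 (cr_symm h).2 h0' h0 hr2.symm
  have e1 : t = t' := by linarith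
  subst e1
  have e2 : s = s' := by
    have h5 : (s - s') * (-t) = 0 := by linarith
    rcases mul_eq_zero.1 h5 with h6 | h6 <;> linarith
  subst e2
  have e3 : (1 - t) • b = (1 - t) • b' := by
    have h5 := h.eq
    rw [h'.eq] at h5
    exact (add_right_cancel h5).symm
  exact smul_right_injective ℂ (show (1 - t) ≠ 0 by linarith) e3
-- END row uniq

-- BEGIN row dist3
private theorem dist3_ne {a b c : ℂ} (h : Ind a b c) : a ≠ b ∧ a ≠ c ∧ b ≠ c := by
  refine ⟨fun e => ?_, fun e => ?_, fun e => ?_⟩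
  · have := (h 1 (-1) 0 (by norm_num) (by rw [e]; simp)).1
    exact one_ne_zero this
  · have := (h 1 0 (-1) (by norm_num) (by rw [e]; simp)).1
    exact one_ne_zero this
  · have := (h 0 1 (-1) (by norm_num) (by rw [e]; simp)).2.1
    exact one_ne_zero this

/-- The points of a configuration are distinct. PROOF. From `Ind`: if `a = b` then the relation
`1, -1, 0`. `a ≠ d`: else `a` is on the line `b c` by `eq`: the relation `1, t - 1, -t`. -/
theorem dist3 {a b c d : ℂ} {s t : ℝ} (h : Cr a b c d s t) :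
    a ≠ b ∧ a ≠ c ∧ b ≠ c ∧ d ≠ b ∧ d ≠ c ∧ a ≠ d := by
  obtain ⟨h1, h2, h3⟩ := dist3_ne h.ind
  obtain ⟨h4, h5, _⟩ := dist3_ne (cr_ind h).1
  refine ⟨h1, h2, h3, h4, h5, fun e => ?_⟩
  have h6 := h.eq
  rw [← e, ← add_smul, sub_add_cancel, one_smul] at h6
  have h7 := (h.ind 1 (t - 1) (-t) (by ring) (by
    rw [one_smul, h6]
    module)).1
  exact one_ne_zero h7
-- END row dist3

-- BEGIN row dart
private theorem dart_no {a b c d p q : ℂ} {s t : ℝ} (h : Cr a b c d s t) (h0 : t < 0)
    (hpq : p = a ∧ q = d ∨ p = d ∧ q = a) (hs : openSegment ℝ p q ⊆ reg a b c d) : False := by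
  have hs' : openSegment ℝ a d ⊆ reg a b c d := by
    rcases hpq with ⟨rfl, rfl⟩ | ⟨rfl, rfl⟩
    · exact hs
    · rwa [openSegment_symm] at hs
  have hm : (1 / 2 : ℝ) • a + (1 / 2 : ℝ) • d ∈ openSegment ℝ a d :=
    ⟨1 / 2, 1 / 2, by norm_num, by norm_num, by norm_num, rfl⟩
  exact dent_out h h0 _ hm (hs' hm)

/-- Two dents with the same region. PROOF. By `hull_dent` and `ext3` (`cr_ind`) the sets `{a, c, d}`
and `{a', c', d'}` are equal. If `c' = a` then `{a', d'} = {c, d}` and `openSegment a' d'` is in the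
region by `side_in` and not empty, against `dent_out`; the same for `c' = d`. So `c' = c` and
`{a', d'} = {a, d}`; then `uniq` (after exchanging `a', d'` by `reg_symm` and `cr_symm` if
needed). -/
theorem dart {a b c d a' b' c' d' : ℂ} {s t s' t' : ℝ} (h : Cr a b c d s t)
    (h' : Cr a' b' c' d' s' t') (h0 : t < 0) (h0' : t' < 0) (hr : reg a b c d = reg a' b' c' d') :
    b = b' ∧ c = c' ∧ (a = a' ∧ d = d' ∨ a = d' ∧ d = a') := by
  have hset : ({a, c, d} : Set ℂ) = {a', c', d'} := by
    rw [← ext3 ((cr_ind h).2.1 (by linarith)), ← hull_dent h h0.le, hr, hull_dent h' h0'.le,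
      ext3 ((cr_ind h').2.1 (by linarith))]
  obtain ⟨-, hac, -, -, hdc, had⟩ := dist3 h
  have ha : a ∈ ({a', c', d'} : Set ℂ) := hset ▸ (by simp)
  have hd : d ∈ ({a', c', d'} : Set ℂ) := hset ▸ (by simp)
  have hc : c' ∈ ({a, c, d} : Set ℂ) := hset ▸ (by simp)
  have hside := side_in a' b' c' d'
  rw [← hr] at hside
  simp only [Set.mem_insert_iff, Set.mem_singleton_iff] at ha hd hc
  rcases hc with hc | hc | hc
  · exfalso
    rcases hd with hd | hd | hd
    · exact dart_no h h0 (Or.inr ⟨hd.symm, hc⟩) hside.1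
    · exact had (hc.symm.trans hd.symm)
    · exact dart_no h h0 (Or.inl ⟨hc, hd.symm⟩) hside.2
  · subst hc
    rcases ha with ha | ha | ha
    · rcases hd with hd | hd | hd
      · exact absurd (ha.trans hd.symm) had
      · exact absurd hd hdc
      · subst ha
        subst hd
        exact ⟨uniq h h' h0 h0' hr, rfl, Or.inl ⟨rfl, rfl⟩⟩
    · exact absurd ha hac
    · rcases hd with hd | hd | hd
      · subst ha
        subst hd
        exact ⟨uniq h (cr_symm h').2 h0 h0' (hr.trans (reg_symm _ _ _ _).2.symm), rfl,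
          Or.inr ⟨rfl, rfl⟩⟩
      · exact absurd hd hdc
      · exact absurd (ha.trans hd.symm) had
  · exfalso
    rcases ha with ha | ha | ha
    · exact dart_no h h0 (Or.inl ⟨ha.symm, hc⟩) hside.1
    · exact had (ha.trans hc)
    · exact dart_no h h0 (Or.inr ⟨hc, ha.symm⟩) hside.2
-- END row dart

-- BEGIN row diag
private theorem diag_one {a b c d : ℂ} {s t : ℝ} (h : Cr a b c d s t) (h0 : 0 < t) (h1 : t < 1) :
    dist a b + dist c d < dist b c + dist a d := by
  have e1 : dist a ((1 - s) • a + s • d) = s * dist a d := by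
    rw [dist_eq_norm, dist_eq_norm, show a - ((1 - s) • a + s • d) = s • (a - d) by module,
      norm_smul, Real.norm_eq_abs, abs_of_pos h.s0]
  have e2 : dist ((1 - s) • a + s • d) d = (1 - s) * dist a d := by
    rw [dist_eq_norm, dist_eq_norm, show (1 - s) • a + s • d - d = (1 - s) • (a - d) by module,
      norm_smul, Real.norm_eq_abs, abs_of_pos (by linarith [h.s1])]
  have e3 : dist ((1 - t) • b + t • c) b = t * dist b c := by
    rw [dist_eq_norm, dist_comm b c, dist_eq_norm,
      show (1 - t) • b + t • c - b = t • (c - b) by module,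
      norm_smul, Real.norm_eq_abs, abs_of_pos h0]
  have e4 : dist c ((1 - t) • b + t • c) = (1 - t) * dist b c := by
    rw [dist_eq_norm, dist_comm b c, dist_eq_norm,
      show c - ((1 - t) • b + t • c) = (1 - t) • (c - b) by module,
      norm_smul, Real.norm_eq_abs, abs_of_pos (by linarith)]
  have h3 : dist c d ≤ (1 - t) * dist b c + (1 - s) * dist a d := by
    have := dist_triangle c ((1 - t) • b + t • c) d
    rw [e4, ← h.eq, e2] at this
    exact this
  have h4 : dist a b < s * dist a d + t * dist b c := by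
    have h5 := dist_triangle a ((1 - t) • b + t • c) b
    have h6 : dist a ((1 - t) • b + t • c) = s * dist a d := by rw [← h.eq, e1]
    rw [h6, e3] at h5
    refine lt_of_le_of_ne h5 fun h7 => ?_
    have h8 : dist a ((1 - t) • b + t • c) + dist ((1 - t) • b + t • c) b = dist a b := by
      rw [h6, e3, h7]
    rw [dist_add_dist_eq_iff] at h8
    obtain ⟨u, _, hu⟩ := h8
    rw [AffineMap.lineMap_apply_module] at hu
    have h9 : (1 - u) • a + (u - (1 - t)) • b + (-t) • c = 0 := by
      have : (1 - u) • a + (u - (1 - t)) • b + (-t) • c =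
        ((1 - u) • a + u • b) - ((1 - t) • b + t • c) := by module
      rw [this, hu, sub_self]
    have h10 := (h.ind _ _ _ (by ring) h9).2.2
    linarith
  linarith

/-- In a convex quadrilateral the sum of the diagonals is larger than the sum of two opposite sides.
PROOF. `z = (1 - t) • b + t • c` is on both diagonals: `dist b c = dist b z + dist z c`,
`dist a d = dist a z + dist z d`; triangle inequality `dist a b ≤ dist a z + dist z b`, strict since
`a, z, b` are not collinear (`dist_add_dist_eq_iff : dist x y + dist y z = dist x z ↔ Wbtw`; if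
`z` is between `a` and `b`: a relation between `a, b, c` with coefficient of `c` equal to `t ≠ 0`),
and `dist c d ≤ dist c z + dist z d`. The second inequality by `cr_symm`. -/
theorem diag {a b c d : ℂ} {s t : ℝ} (h : Cr a b c d s t) (h0 : 0 < t) (h1 : t < 1) :
    dist a b + dist c d < dist b c + dist a d ∧ dist a c + dist b d < dist b c + dist a d := by
  refine ⟨diag_one h h0 h1, ?_⟩
  have h2 := diag_one (cr_symm h).1 (by linarith) (by linarith)
  rwa [dist_comm c b] at h2
-- END row diag

-- BEGIN row fin4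
/-- The matched case. PROOF. The four cases; in each substitute and use `Dat` with `dist_comm`. -/
theorem fin4 {a b c d a' b' c' d' : ℂ} (hd : Dat a b c d a' b' c' d')
    (h1 : b = b' ∧ c = c' ∨ b = c' ∧ c = b') (h2 : a = a' ∧ d = d' ∨ a = d' ∧ d = a') :
    dist b c = dist b' c' ∧ (dist a b = dist c d ∨ dist a c = dist b d) := by
  have hA := hd.A
  have hB := hd.B
  have hC := hd.C
  have hD := hd.D
  rcases h1 with ⟨rfl, rfl⟩ | ⟨rfl, rfl⟩ <;> rcases h2 with ⟨rfl, rfl⟩ | ⟨rfl, rfl⟩
  · refine ⟨rfl, Or.inr ?_⟩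
    rw [hB]
  · refine ⟨rfl, Or.inl ?_⟩
    linarith [dist_comm d b, dist_comm d c]
  · refine ⟨dist_comm _ _, Or.inl ?_⟩
    linarith [dist_comm a b, dist_comm c d, dist_comm b d, dist_comm a c]
  · refine ⟨dist_comm _ _, Or.inl ?_⟩
    rw [hA, dist_comm]
-- END row fin4

-- BEGIN row match4
/-- Two convex quadrilaterals with the same corners. PROOF. `a', b', c', d'` are the four points in
some order (24 cases, by `rcases` on the memberships; the others contradict the distinctness). In
each case the pairs `{b', c'}`, `{a', d'}` are one of the three pairings of `a, b, c, d`, and the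
inequalities `P`, `P'` force the pairing `{b, c}, {a, d}`; if `{b', c'} = {a, d}` then `Dat.F` is
`dist a d < dist a d`. So `{b', c'} = {b, c}`, `{a', d'} = {a, d}`, then `fin4`. -/
theorem match4 {a b c d a' b' c' d' : ℂ} (hd : Dat a b c d a' b' c' d')
    (hn : a ≠ b ∧ a ≠ c ∧ b ≠ c ∧ d ≠ b ∧ d ≠ c ∧ a ≠ d)
    (hn' : a' ≠ b' ∧ a' ≠ c' ∧ b' ≠ c' ∧ d' ≠ b' ∧ d' ≠ c' ∧ a' ≠ d')
    (hs : ({a, b, c, d} : Set ℂ) = {a', b', c', d'})
    (P : dist a b + dist c d < dist b c + dist a d ∧ dist a c + dist b d < dist b c + dist a d)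
    (P' : dist a' b' + dist c' d' < dist b' c' + dist a' d' ∧
      dist a' c' + dist b' d' < dist b' c' + dist a' d') :
    dist b c = dist b' c' ∧ (dist a b = dist c d ∨ dist a c = dist b d) := by
  have e1 := dist_comm a b
  have e2 := dist_comm a c
  have e3 := dist_comm a d
  have e4 := dist_comm b c
  have e5 := dist_comm b d
  have e6 := dist_comm c d
  have hF := hd.F
  obtain ⟨p1, p2⟩ := P
  obtain ⟨q1, q2⟩ := P'
  obtain ⟨n1, n2, n3, n4, n5, n6⟩ := hn'
  have ha : a' = a ∨ a' = b ∨ a' = c ∨ a' = d := by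
    have h : a' ∈ ({a, b, c, d} : Set ℂ) := by rw [hs]; simp
    simpa using h
  have hb : b' = a ∨ b' = b ∨ b' = c ∨ b' = d := by
    have h : b' ∈ ({a, b, c, d} : Set ℂ) := by rw [hs]; simp
    simpa using h
  have hc : c' = a ∨ c' = b ∨ c' = c ∨ c' = d := by
    have h : c' ∈ ({a, b, c, d} : Set ℂ) := by rw [hs]; simp
    simpa using h
  have hd' : d' = a ∨ d' = b ∨ d' = c ∨ d' = d := by
    have h : d' ∈ ({a, b, c, d} : Set ℂ) := by rw [hs]; simp
    simpa using h
  clear hs hn
  rcases hb with hb | hb | hb | hb <;> rcases hc with hc | hc | hc | hc <;>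
    first
    | exact absurd (hb.trans hc.symm) n3
    | (rcases ha with ha | ha | ha | ha <;>
        first
        | exact absurd (ha.trans hb.symm) n1
        | exact absurd (ha.trans hc.symm) n2
        | (rcases hd' with hd' | hd' | hd' | hd' <;>
            first
            | exact absurd (hd'.trans hb.symm) n4
            | exact absurd (hd'.trans hc.symm) n5
            | exact absurd (ha.trans hd'.symm) n6
            | exact fin4 hd (Or.inl ⟨hb.symm, hc.symm⟩) (Or.inl ⟨ha.symm, hd'.symm⟩)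
            | exact fin4 hd (Or.inl ⟨hb.symm, hc.symm⟩) (Or.inr ⟨hd'.symm, ha.symm⟩)
            | exact fin4 hd (Or.inr ⟨hc.symm, hb.symm⟩) (Or.inl ⟨ha.symm, hd'.symm⟩)
            | exact fin4 hd (Or.inr ⟨hc.symm, hb.symm⟩) (Or.inr ⟨hd'.symm, ha.symm⟩)
            | (exfalso
               rw [ha, hb, hc, hd'] at q1 q2
               rw [hb, hc] at hF
               linarith)))
-- END row match4

-- BEGIN row stew
/-- Stewart's theorem. PROOF. `dist_eq_norm`; with `x = v - u`, `y = w - u` the norm of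
`(1 - t) • x + t • y` squared, `norm_add_sq_real`, `norm_sub_sq_real`, `inner_smul_left/right`;
`ring`. -/
theorem stew {V : Type*} [NormedAddCommGroup V] [InnerProductSpace ℝ V] (u v w : V) (t : ℝ) :
    dist u ((1 - t) • v + t • w) ^ 2 =
      (1 - t) * dist u v ^ 2 + t * dist u w ^ 2 - t * (1 - t) * dist v w ^ 2 := by
  have e1 : u - ((1 - t) • v + t • w) = (1 - t) • (u - v) + t • (u - w) := by
    have : u = (1 - t) • u + t • u := by rw [← add_smul, show (1 - t + t : ℝ) = 1 by ring, one_smul]
    conv_lhs => rw [this]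
    rw [smul_sub, smul_sub]
    abel
  have e2 : v - w = (u - w) - (u - v) := by abel
  have e3 := norm_add_sq_real ((1 - t) • (u - v)) (t • (u - w))
  have e4 := norm_sub_sq_real (u - w) (u - v)
  rw [real_inner_smul_left, real_inner_smul_right, norm_smul, norm_smul, mul_pow, mul_pow,
    Real.norm_eq_abs, Real.norm_eq_abs, sq_abs, sq_abs, real_inner_comm (u - w) (u - v)] at e3
  rw [dist_eq_norm, dist_eq_norm, dist_eq_norm, dist_eq_norm, e1, e2, e3, e4]
  ring
-- END row stew

-- BEGIN row flat
/-- Distances when `t = 0`: `b` is on the segment `a d`. PROOF. `b = (1 - s) • a + s • d`, so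
`dist a b = s * dist a d` and `dist b d = (1 - s) * dist a d`; the second formula is `stew` with
`u = c`, times `dist a d`. -/
theorem flat {a b c d : ℂ} {s : ℝ} (h : Cr a b c d s 0) :
    dist a d = dist a b + dist b d ∧
    dist b c ^ 2 * (dist a b + dist b d) = dist b d * dist a c ^ 2 + dist a b * dist c d ^ 2
      - dist a b * dist b d * (dist a b + dist b d) := by
  have e0 : (1 - s) • a + s • d = b := by
    have := h.eq
    simpa using this
  have h0 := h.s0
  have h1 := h.s1
  have e1 : dist a b = s * dist a d := by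
    rw [← e0, dist_eq_norm, dist_eq_norm]
    have : a - ((1 - s) • a + s • d) = s • (a - d) := by
      rw [smul_sub, sub_smul, one_smul]
      abel
    rw [this, norm_smul, Real.norm_eq_abs, abs_of_pos h0]
  have e2 : dist b d = (1 - s) * dist a d := by
    rw [← e0, dist_eq_norm, dist_eq_norm]
    have : (1 - s) • a + s • d - d = (1 - s) • (a - d) := by
      rw [smul_sub, sub_smul, sub_smul, one_smul, one_smul]
      abel
    rw [this, norm_smul, Real.norm_eq_abs, abs_of_pos (by linarith)]
  have e3 := stew c a d s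
  rw [e0, dist_comm c b, dist_comm c a] at e3
  refine ⟨by rw [e1, e2]; ring, ?_⟩
  rw [e3, e1, e2]
  ring
-- END row flat

-- BEGIN row flat00
/-- Both flat at the hinge points `b`, `b'`. PROOF. `hs` gives (six bijections, `rcases` on the
memberships, the points being distinct) the equality of the side lengths as multisets
`{dist a d, dist c d, dist a c} = {dist a' d', dist c' d', dist a' c'}`. With `A, B, C, D` of `Dat`:
`{A + B, C, D} = {A + D, C, B}` (by `flat`). As `A > 0` this forces `B = D` in each case, and then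
the two formulas of `flat` give `dist b c ^ 2 = dist b' c' ^ 2`. -/
theorem flat00 {a b c d a' b' c' d' : ℂ} {s s' : ℝ} (hd : Dat a b c d a' b' c' d')
    (h : Cr a b c d s 0) (h' : Cr a' b' c' d' s' 0)
    (hs : ({a, c, d} : Set ℂ) = {a', c', d'}) :
    dist b c = dist b' c' ∧ (dist a b = dist c d ∨ dist a c = dist b d) := by
  have n := dist3 h
  have ha : a ∈ ({a', c', d'} : Set ℂ) := hs ▸ (by simp)
  have hc : c ∈ ({a', c', d'} : Set ℂ) := hs ▸ (by simp)
  have hdd : d ∈ ({a', c', d'} : Set ℂ) := hs ▸ (by simp)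
  simp only [Set.mem_insert_iff, Set.mem_singleton_iff] at ha hc hdd
  have k1 := (flat h).1
  have k2 := (flat h').1
  have hA : 0 < dist a b := dist_pos.2 n.1
  have hB : 0 < dist b d := dist_pos.2 n.2.2.2.1.symm
  have q1 := dist_comm a' c'
  have q2 := dist_comm a' d'
  have q3 := dist_comm c' d'
  have z1 := hd.A
  have z2 := hd.B
  have z3 := hd.C
  have z4 := hd.D
  have key : dist b d = dist a c := by
    rcases ha with ha | ha | ha <;> rcases hc with hc | hc | hc <;>
      rcases hdd with hdd | hdd | hdd <;>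
      first
        | exact absurd (ha.trans hc.symm) n.2.1
        | exact absurd (ha.trans hdd.symm) n.2.2.2.2.2
        | exact absurd (hdd.trans hc.symm) n.2.2.2.2.1
        | (have g1 := congrArg₂ dist ha hdd
           have g2 := congrArg₂ dist hc hdd
           have g3 := congrArg₂ dist ha hc
           linarith)
  have p1 := (flat h).2
  have p2 := (flat h').2
  rw [← hd.A, ← hd.D, ← hd.B, ← hd.C, key] at p2
  rw [key] at p1
  have hT : 0 < dist a b + dist a c := by
    rw [← key]
    linarith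
  have h2 : dist b c ^ 2 = dist b' c' ^ 2 := mul_right_cancel₀ hT.ne' (p1.trans p2.symm)
  exact ⟨(pow_left_inj₀ dist_nonneg dist_nonneg two_ne_zero).1 h2, Or.inr key.symm⟩
-- END row flat00

-- BEGIN row flat01
/-- Flat at `b` and at `c'`. PROOF. As `flat00`: now `flat` for `Cr a' c' b' d' s' 0`
(`cr_symm`) gives `dist a' d' = B + C`; the side lengths are `{A + B, C, D} = {B + C, A, D}`, which
forces `A = C`, and then the formulas of `flat` give the equality. -/
theorem flat01 {a b c d a' b' c' d' : ℂ} {s s' : ℝ} (hd : Dat a b c d a' b' c' d')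
    (h : Cr a b c d s 0) (h' : Cr a' b' c' d' s' 1)
    (hs : ({a, c, d} : Set ℂ) = {a', b', d'}) :
    dist b c = dist b' c' ∧ (dist a b = dist c d ∨ dist a c = dist b d) := by
  have n := dist3 h
  have h'' := (cr_symm h').1
  rw [sub_self] at h''
  have ha : a ∈ ({a', b', d'} : Set ℂ) := hs ▸ (by simp)
  have hc : c ∈ ({a', b', d'} : Set ℂ) := hs ▸ (by simp)
  have hdd : d ∈ ({a', b', d'} : Set ℂ) := hs ▸ (by simp)
  simp only [Set.mem_insert_iff, Set.mem_singleton_iff] at ha hc hdd
  have k1 := (flat h).1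
  have k2 := (flat h'').1
  have hA : 0 < dist a b := dist_pos.2 n.1
  have hB : 0 < dist b d := dist_pos.2 n.2.2.2.1.symm
  have q1 := dist_comm a' b'
  have q2 := dist_comm a' d'
  have q3 := dist_comm b' d'
  have z1 := hd.A
  have z2 := hd.B
  have z3 := hd.C
  have z4 := hd.D
  have key : dist a b = dist c d := by
    rcases ha with ha | ha | ha <;> rcases hc with hc | hc | hc <;>
      rcases hdd with hdd | hdd | hdd <;>
      first
        | exact absurd (ha.trans hc.symm) n.2.1
        | exact absurd (ha.trans hdd.symm) n.2.2.2.2.2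
        | exact absurd (hdd.trans hc.symm) n.2.2.2.2.1
        | (have g1 := congrArg₂ dist ha hdd
           have g2 := congrArg₂ dist hc hdd
           have g3 := congrArg₂ dist ha hc
           linarith)
  have p1 := (flat h).2
  have p2 := (flat h'').2
  rw [← hd.A, ← hd.D, ← hd.B, ← hd.C, ← key, dist_comm c' b'] at p2
  rw [← key] at p1
  have hT : 0 < dist a b + dist b d := by linarith
  have h2 : dist b c ^ 2 = dist b' c' ^ 2 := by
    refine mul_right_cancel₀ hT.ne' ?_
    rw [p1]
    linear_combination -p2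
  exact ⟨(pow_left_inj₀ dist_nonneg dist_nonneg two_ne_zero).1 h2, Or.inl key⟩
-- END row flat01

-- BEGIN row nec0
private theorem nec0_mix {a b c d a' b' c' d' : ℂ} {s t s' t' : ℝ}
    (h : Cr a b c d s t) (h' : Cr a' b' c' d' s' t') (h0 : 0 ≤ t) (h1 : t ≤ 1) (h2 : t' < 0)
    (hr : reg a b c d = reg a' b' c' d') : False := by
  have hc := reg_conv h h0 h1
  rw [hr] at hc
  have ha : a' ∈ reg a' b' c' d' := Or.inl (subset_convexHull ℝ _ (by simp))
  have hd : d' ∈ reg a' b' c' d' := Or.inr (subset_convexHull ℝ _ (by simp))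
  have hy : (1 / 2 : ℝ) • a' + (1 / 2 : ℝ) • d' ∈ openSegment ℝ a' d' :=
    ⟨1 / 2, 1 / 2, by norm_num, by norm_num, by norm_num, rfl⟩
  exact dent_out h' h2 _ hy (hc.segment_subset ha hd (openSegment_subset_segment _ _ _ hy))

private theorem nec0_ext {a b c d : ℂ} {s t : ℝ} (h : Cr a b c d s t) (h0 : t ≤ 0) :
    extremePoints ℝ (convexHull ℝ (reg a b c d)) = {a, c, d} := by
  rw [hull_dent h h0]
  exact ext3 ((cr_ind h).2.1 (by linarith))

private theorem nec0_four {a c d a' b' c' d' : ℂ}
    (n : a' ≠ b' ∧ a' ≠ c' ∧ b' ≠ c' ∧ d' ≠ b' ∧ d' ≠ c' ∧ a' ≠ d')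
    (hs : ({a, c, d} : Set ℂ) = {a', b', c', d'}) : False := by
  have h1 : a' ∈ ({a, c, d} : Set ℂ) := hs ▸ (by simp)
  have h2 : b' ∈ ({a, c, d} : Set ℂ) := hs ▸ (by simp)
  have h3 : c' ∈ ({a, c, d} : Set ℂ) := hs ▸ (by simp)
  have h4 : d' ∈ ({a, c, d} : Set ℂ) := hs ▸ (by simp)
  simp only [Set.mem_insert_iff, Set.mem_singleton_iff] at h1 h2 h3 h4
  obtain ⟨n1, n2, n3, n4, n5, n6⟩ := n
  rcases h1 with h1 | h1 | h1 <;> rcases h2 with h2 | h2 | h2 <;>
    rcases h3 with h3 | h3 | h3 <;> rcases h4 with h4 | h4 | h4 <;>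
    first
      | exact n1 (h1.trans h2.symm)
      | exact n2 (h1.trans h3.symm)
      | exact n3 (h2.trans h3.symm)
      | exact n4 (h4.trans h2.symm)
      | exact n5 (h4.trans h3.symm)
      | exact n6 (h1.trans h4.symm)

/-- Necessity in the plane when `t ≤ 0`. PROOF. `hull_dent`, `ext3`, `cr_ind`: the extreme points of
the hull of the region are `{a, c, d}`. If `0 < t' < 1` they are `{a', b', c', d'}` (`ext4`), four
distinct points (`dist3`): contradiction. If `t' ≤ 0` they are `{a', c', d'}`: either both are `0`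
(`flat00`), or both `< 0` (`dart`, `fin4`), or one is `0` and the other `< 0`: then the region is
convex (`reg_conv`) and contains `a, d` (resp. `a', d'`), against `dent_out`. If `t' ≥ 1`: the same
with `Cr a' c' b' d' s' (1 - t')`, `reg_symm`, and `flat01`, `dart`, `fin4`. -/
theorem nec0 {a b c d a' b' c' d' : ℂ} {s t s' t' : ℝ} (hd : Dat a b c d a' b' c' d')
    (h : Cr a b c d s t) (h' : Cr a' b' c' d' s' t') (h0 : t ≤ 0)
    (hr : reg a b c d = reg a' b' c' d') :
    dist b c = dist b' c' ∧ (dist a b = dist c d ∨ dist a c = dist b d) := by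
  have hX := nec0_ext h h0
  rcases lt_or_ge 0 t' with k1 | k1
  · rcases lt_or_ge t' 1 with k2 | k2
    · have hY := ext4 h' k1 k2
      rw [← hr, hX] at hY
      exact (nec0_four (dist3 h') hY).elim
    · have h'' := (cr_symm h').1
      have hr2 : reg a b c d = reg a' c' b' d' := by
        rw [(reg_symm a' b' c' d').1]
        exact hr
      rcases h0.lt_or_eq with m1 | m1
      · rcases k2.lt_or_eq with m2 | m2
        · obtain ⟨e1, e2, e3⟩ := dart h h'' m1 (by linarith) hr2
          exact fin4 hd (Or.inr ⟨e1, e2⟩) e3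
        · exact (nec0_mix h'' h (by linarith) (by linarith) m1 hr2.symm).elim
      · rcases k2.lt_or_eq with m2 | m2
        · exact (nec0_mix h h'' (by linarith) (by linarith) (by linarith) hr2).elim
        · subst m1
          subst m2
          have hY := nec0_ext h'' (by linarith)
          rw [← hr2, hX] at hY
          exact flat01 hd h h' hY
  · rcases h0.lt_or_eq with m1 | m1
    · rcases k1.lt_or_eq with m2 | m2
      · obtain ⟨e1, e2, e3⟩ := dart h h' m1 m2 hr
        exact fin4 hd (Or.inl ⟨e1, e2⟩) e3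
      · exact (nec0_mix h' h (by linarith) (by linarith) m1 hr.symm).elim
    · rcases k1.lt_or_eq with m2 | m2
      · exact (nec0_mix h h' (by linarith) (by linarith) m2 hr).elim
      · subst m1
        subst m2
        have hY := nec0_ext h' le_rfl
        rw [← hr, hX] at hY
        exact flat00 hd h h' hY
-- END row nec0

-- BEGIN row nec
/-- Necessity in the plane. PROOF. `t ≤ 0`: `nec0`. `t ≥ 1`: `nec0` for `a, c, b, d` and
`d', b', c', a'` (`cr_symm`, `reg_symm`; `Dat` is preserved by this change of letters). `0 < t < 1`: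
then `0 < t' < 1`, else the extreme points of the hull of the region are three (`hull_dent`, `ext3`;
with `cr_symm` if `t' ≥ 1`) and also four distinct points (`ext4`, `dist3`); then `match4` with
`ext4`, `dist3`, `diag`. -/
theorem nec {a b c d a' b' c' d' : ℂ} {s t s' t' : ℝ} (hd : Dat a b c d a' b' c' d')
    (h : Cr a b c d s t) (h' : Cr a' b' c' d' s' t')
    (hr : reg a b c d = reg a' b' c' d') :
    dist b c = dist b' c' ∧ (dist a b = dist c d ∨ dist a c = dist b d) := by
  rcases le_or_gt t 0 with h0 | h0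
  · exact nec0 hd h h' h0 hr
  rcases le_or_gt 1 t with h1 | h1
  · have hd2 : Dat a c b d d' b' c' a' :=
      { A := by rw [hd.D, dist_comm]
        B := by rw [hd.C, dist_comm]
        C := by rw [hd.B, dist_comm]
        D := by rw [hd.A, dist_comm]
        E := by rw [dist_comm c b, dist_comm d' a']; exact hd.E
        F := hd.F }
    have hr2 : reg a c b d = reg d' b' c' a' := by
      rw [(reg_symm a b c d).1, (reg_symm a' b' c' d').2, hr]
    obtain ⟨k1, k2⟩ := nec0 hd2 (cr_symm h).1 (cr_symm h').2 (by linarith) hr2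
    exact ⟨by rw [dist_comm b c, k1], k2.symm⟩
  -- four different extreme points
  have hn := dist3 h
  have h4 := ext4 h h0 h1
  have hcard : ({a, b, c, d} : Set ℂ).ncard = 4 := by
    obtain ⟨n1, n2, n3, n4, n5, n6⟩ := hn
    rw [Set.ncard_insert_of_notMem, Set.ncard_insert_of_notMem, Set.ncard_pair n5.symm]
    · simp only [Set.mem_insert_iff, Set.mem_singleton_iff, not_or]
      exact ⟨n3, n4.symm⟩
    · simp only [Set.mem_insert_iff, Set.mem_singleton_iff, not_or]
      exact ⟨n1, n2, n6⟩
  have hthree : ∀ u v w : ℂ, ({a, b, c, d} : Set ℂ) = {u, v, w} → False := by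
    intro u v w e
    have h5 : ({u, v, w} : Set ℂ).ncard ≤ 3 := by
      refine (Set.ncard_insert_le _ _).trans ?_
      have := Set.ncard_insert_le v ({w} : Set ℂ)
      rw [Set.ncard_singleton] at this
      omega
    rw [← e, hcard] at h5
    omega
  have h0' : 0 < t' := by
    by_contra hc
    have hc' : t' ≤ 0 := not_lt.1 hc
    refine hthree a' c' d' ?_
    have h6 : t' ≠ 1 := by
      intro h7
      rw [h7] at hc'
      linarith
    rw [← h4, hr, hull_dent h' hc', ext3 ((cr_ind h').2.1 h6)]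
  have h1' : t' < 1 := by
    by_contra hc
    have hc' : 1 ≤ t' := not_lt.1 hc
    refine hthree a' b' d' ?_
    rw [← h4, hr, ← (reg_symm a' b' c' d').1, hull_dent (cr_symm h').1 (by linarith),
      ext3 ((cr_ind h').2.2 h0'.ne')]
  refine match4 hd hn (dist3 h') ?_ (diag h h0 h1) (diag h' h0' h1')
  rw [← h4, hr, ext4 h' h0' h1']
-- END row nec

-- BEGIN row map_reg
/-- An isometry carries regions and configurations along. PROOF. `φ` is affine:
`IsometryEquiv.toRealAffineIsometryEquiv`; `AffineMap.image_convexHull` (or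
`LinearMap.image_convexHull`), `Set.image_union`, `image_insert_eq`. `Ind`: an affine injective map
preserves the relations with sum of coefficients zero (an affine map sends
`(1 - s) • a + s • d` to the same combination; a relation `x • φ a + y • φ b + z • φ c = 0`,
`x + y + z = 0` says `y • (φ b - φ a) + z • (φ c - φ a) = 0`, the linear part is injective). -/
theorem map_reg (φ : ℂ ≃ᵢ ℂ) (a b c d : ℂ) :
    φ '' reg a b c d = reg (φ a) (φ b) (φ c) (φ d) ∧
    ∀ s t : ℝ, Cr a b c d s t → Cr (φ a) (φ b) (φ c) (φ d) s t := by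
  obtain ⟨f, hf⟩ : ∃ f : ℂ →ᵃ[ℝ] ℂ, ∀ x, f x = φ x :=
    ⟨(φ.toRealAffineIsometryEquiv).toAffineEquiv.toAffineMap, fun x => rfl⟩
  have hfun : (f : ℂ → ℂ) = φ := funext hf
  have him : ∀ x y z : ℂ, φ '' convexHull ℝ {x, y, z} = convexHull ℝ {φ x, φ y, φ z} := by
    intro x y z
    rw [← hfun, AffineMap.image_convexHull, Set.image_insert_eq, Set.image_pair]
  refine ⟨?_, fun s t h => ⟨?_, h.s0, h.s1, ?_⟩⟩
  · unfold reg
    rw [Set.image_union, him, him]
  · intro x y z hxyz h1
    have hlin : ∀ u : ℂ, φ u = f.linear u + φ 0 := by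
      intro u
      have := f.map_vadd 0 u
      simp only [vadd_eq_add, add_zero] at this
      rw [← hf, ← hf, this]
    have h2 : f.linear (x • a + y • b + z • c) = 0 := by
      have h3 : x • φ a + y • φ b + z • φ c =
          f.linear (x • a + y • b + z • c) + (x + y + z) • φ 0 := by
        rw [hlin a, hlin b, hlin c, map_add, map_add, map_smul, map_smul, map_smul]
        module
      rw [h1, hxyz, zero_smul, add_zero] at h3
      exact h3.symm
    refine h.ind x y z hxyz (φ.injective ?_)
    rw [hlin (x • a + y • b + z • c), h2, zero_add]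
  · have hl : ∀ (u v : ℂ) (r : ℝ), φ ((1 - r) • u + r • v) = (1 - r) • φ u + r • φ v := by
      intro u v r
      rw [← hf, ← AffineMap.lineMap_apply_module, AffineMap.apply_lineMap,
        AffineMap.lineMap_apply_module, hf, hf]
    rw [← hl, ← hl, h.eq]
-- END row map_reg

-- BEGIN row iso4
private theorem iso4_coord {a b c a' b' c' : ℂ} (hbc : b ≠ c) (hbc' : b' ≠ c')
    (h1 : dist a b = dist a' b') (h2 : dist a c = dist a' c') (h3 : dist b c = dist b' c') :
    ((a - b) / (c - b)).re = ((a' - b') / (c' - b')).re ∧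
      (((a - b) / (c - b)).im = ((a' - b') / (c' - b')).im ∨
        ((a - b) / (c - b)).im = -((a' - b') / (c' - b')).im) := by
  have hcb : c - b ≠ 0 := sub_ne_zero.2 hbc.symm
  have hcb' : c' - b' ≠ 0 := sub_ne_zero.2 hbc'.symm
  have hn3 : ‖c - b‖ = ‖c' - b'‖ := by
    rw [← dist_eq_norm, ← dist_eq_norm, dist_comm c b, dist_comm c' b']; exact h3
  have e1 : ‖(a - b) / (c - b)‖ = ‖(a' - b') / (c' - b')‖ := by
    rw [norm_div, norm_div, hn3, ← dist_eq_norm a b, ← dist_eq_norm a' b', h1]
  have e2 : ‖(a - b) / (c - b) - 1‖ = ‖(a' - b') / (c' - b') - 1‖ := by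
    have f1 : (a - b) / (c - b) - 1 = (a - c) / (c - b) := by field_simp; ring
    have f2 : (a' - b') / (c' - b') - 1 = (a' - c') / (c' - b') := by field_simp; ring
    rw [f1, f2, norm_div, norm_div, hn3, ← dist_eq_norm a c, ← dist_eq_norm a' c', h2]
  have s1 := congrArg (· ^ 2) e1
  have s2 := congrArg (· ^ 2) e2
  simp only [← Complex.normSq_eq_norm_sq, Complex.normSq_apply, Complex.sub_re, Complex.sub_im,
    Complex.one_re, Complex.one_im] at s1 s2
  have hre : ((a - b) / (c - b)).re = ((a' - b') / (c' - b')).re := by nlinarith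
  refine ⟨hre, ?_⟩
  rw [hre] at s1
  have h5 : ((a - b) / (c - b)).im ^ 2 = ((a' - b') / (c' - b')).im ^ 2 := by nlinarith
  exact sq_eq_sq_iff_eq_or_eq_neg.1 h5

private theorem iso4_im {a b c d : ℂ} {s t : ℝ} (h : Cr a b c d s t) (hbc : b ≠ c) :
    ((a - b) / (c - b)).im ≠ 0 ∧
      (1 - s) * ((a - b) / (c - b)).im + s * ((d - b) / (c - b)).im = 0 := by
  have hcb : c - b ≠ 0 := sub_ne_zero.2 hbc.symm
  constructor
  · intro h0
    have h1 : (a - b) / (c - b) = ((((a - b) / (c - b)).re : ℝ) : ℂ) := by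
      apply Complex.ext
      · simp
      · simp [h0]
    have h2 : a - b = ((((a - b) / (c - b)).re : ℝ) : ℂ) * (c - b) := by
      rw [← h1]; field_simp
    set r := ((a - b) / (c - b)).re
    have h3 := h.ind 1 (r - 1) (-r) (by ring) (by
      simp only [Complex.real_smul]
      push_cast
      linear_combination h2)
    exact one_ne_zero h3.1
  · have h4 := h.eq
    simp only [Complex.real_smul] at h4
    have h5 : ((1 - s : ℝ) : ℂ) * ((a - b) / (c - b)) + ((s : ℝ) : ℂ) * ((d - b) / (c - b)) =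
        ((t : ℝ) : ℂ) := by
      field_simp
      push_cast at h4 ⊢
      linear_combination h4
    have h6 := congrArg Complex.im h5
    simpa only [Complex.add_im, Complex.im_ofReal_mul, Complex.ofReal_im] using h6

/-- Two configurations with the same five distances are congruent. PROOF. Let `ζ u = (u - b) /
(c - b)`, `ζ' u = (u - b') / (c' - b')`. Then `‖ζ a‖ = ‖ζ' a'‖`, `‖ζ a - 1‖ = ‖ζ' a' - 1‖`, so the
real parts are equal and the imaginary parts are equal up to sign; the same for `d`. By `eq`,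
`(1 - s) ζ a + s ζ d = t`, so the imaginary parts of `ζ a`, `ζ d` are non-zero (`Ind`) with opposite
signs; the same for the primed ones. So either both signs are kept: `φ z = b' + (c' - b') ζ z`, or
both change: `φ z = b' + (c' - b') conj (ζ z)`. These are isometries as `‖c - b‖ = ‖c' - b'‖`
(`IsometryEquiv.mk'` or `IsometryEquiv.mk`, the inverse is of the same form). -/
theorem iso4 {a b c d a' b' c' d' : ℂ} {s t s' t' : ℝ}
    (h : Cr a b c d s t) (h' : Cr a' b' c' d' s' t') (h1 : dist a b = dist a' b')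
    (h2 : dist a c = dist a' c') (h3 : dist b c = dist b' c') (h4 : dist b d = dist b' d')
    (h5 : dist c d = dist c' d') :
    ∃ φ : ℂ ≃ᵢ ℂ, φ a = a' ∧ φ b = b' ∧ φ c = c' ∧ φ d = d' := by
  have hbc : b ≠ c := by
    rintro rfl
    have := h.ind 0 1 (-1) (by ring) (by simp)
    exact one_ne_zero this.2.1
  have hbc' : b' ≠ c' := by
    rintro rfl
    have := h'.ind 0 1 (-1) (by ring) (by simp)
    exact one_ne_zero this.2.1
  have hcb : c - b ≠ 0 := sub_ne_zero.2 hbc.symm
  have hcb' : c' - b' ≠ 0 := sub_ne_zero.2 hbc'.symm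
  have hn3 : ‖c' - b'‖ = ‖c - b‖ := by
    rw [← dist_eq_norm, ← dist_eq_norm, dist_comm c b, dist_comm c' b']; exact h3.symm
  obtain ⟨ra, ia⟩ := iso4_coord hbc hbc' h1 h2 h3
  obtain ⟨rd, id⟩ := iso4_coord hbc hbc' (a := d) (a' := d') (by rw [dist_comm d b, dist_comm d' b', h4])
    (by rw [dist_comm d c, dist_comm d' c', h5]) h3
  obtain ⟨na, qa⟩ := iso4_im h hbc
  obtain ⟨na', qa'⟩ := iso4_im h' hbc'
  have hs0 := h.s0
  have hs1 := h.s1
  have hs0' := h'.s0
  have hs1' := h'.s1
  -- the two signs agree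
  have key : (((a - b) / (c - b)).im = ((a' - b') / (c' - b')).im ∧
      ((d - b) / (c - b)).im = ((d' - b') / (c' - b')).im) ∨
      (((a - b) / (c - b)).im = -((a' - b') / (c' - b')).im ∧
      ((d - b) / (c - b)).im = -((d' - b') / (c' - b')).im) := by
    generalize ((a - b) / (c - b)).im = A at *
    generalize ((a' - b') / (c' - b')).im = A' at *
    generalize ((d - b) / (c - b)).im = D at *
    generalize ((d' - b') / (c' - b')).im = D' at *
    rcases ia with ia | ia <;> rcases id with id | id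
    · exact Or.inl ⟨ia, id⟩
    · exfalso
      subst ia; subst id
      -- (1-s) A' = s D', (1-s') A' = - s' D'
      have e1 : A * ((1 - s) * s' + s * (1 - s')) = 0 := by linear_combination s' * qa + s * qa'
      rcases mul_eq_zero.1 e1 with e | e
      · exact na e
      · nlinarith [mul_pos (sub_pos.2 hs1) hs0', mul_pos hs0 (sub_pos.2 hs1')]
    · exfalso
      subst ia; subst id
      have e1 : A' * ((1 - s) * s' + s * (1 - s')) = 0 := by linear_combination -s' * qa + s * qa'
      rcases mul_eq_zero.1 e1 with e | e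
      · exact na' e
      · nlinarith [mul_pos (sub_pos.2 hs1) hs0', mul_pos hs0 (sub_pos.2 hs1')]
    · exact Or.inr ⟨ia, id⟩
  have hk : ‖(c' - b') / (c - b)‖ = 1 := by
    rw [norm_div, hn3, div_self (norm_ne_zero_iff.2 hcb)]
  have hk0 : (c' - b') / (c - b) ≠ 0 := div_ne_zero hcb' hcb
  rcases key with ⟨ka, kd⟩ | ⟨ka, kd⟩
  · have ea : (a - b) / (c - b) = (a' - b') / (c' - b') := Complex.ext ra ka
    have ed : (d - b) / (c - b) = (d' - b') / (c' - b') := Complex.ext rd kd
    refine ⟨IsometryEquiv.mk' (fun z => b' + (c' - b') / (c - b) * (z - b))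
      (fun w => b + (w - b') / ((c' - b') / (c - b))) (fun w => ?_) ?_, ?_, ?_, ?_, ?_⟩
    · show b' + (c' - b') / (c - b) * (b + (w - b') / ((c' - b') / (c - b)) - b) = w
      rw [add_sub_cancel_left, mul_div_cancel₀ _ hk0]
      ring
    · refine Isometry.of_dist_eq fun z w => ?_
      rw [dist_eq_norm, dist_eq_norm]
      have : b' + (c' - b') / (c - b) * (z - b) - (b' + (c' - b') / (c - b) * (w - b)) =
          (c' - b') / (c - b) * (z - w) := by ring
      rw [this, norm_mul, hk, one_mul]
    · show b' + (c' - b') / (c - b) * (a - b) = a'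
      have : (c' - b') / (c - b) * (a - b) = (c' - b') * ((a - b) / (c - b)) := by ring
      rw [this, ea]; field_simp; ring
    · show b' + (c' - b') / (c - b) * (b - b) = b'
      ring
    · show b' + (c' - b') / (c - b) * (c - b) = c'
      field_simp; ring
    · show b' + (c' - b') / (c - b) * (d - b) = d'
      have : (c' - b') / (c - b) * (d - b) = (c' - b') * ((d - b) / (c - b)) := by ring
      rw [this, ed]; field_simp; ring
  · have ea : (starRingEnd ℂ) ((a - b) / (c - b)) = (a' - b') / (c' - b') := by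
      refine Complex.ext (by rw [Complex.conj_re, ra]) (by rw [Complex.conj_im, ka, neg_neg])
    have ed : (starRingEnd ℂ) ((d - b) / (c - b)) = (d' - b') / (c' - b') := by
      refine Complex.ext (by rw [Complex.conj_re, rd]) (by rw [Complex.conj_im, kd, neg_neg])
    refine ⟨IsometryEquiv.mk' (fun z => b' + (c' - b') * (starRingEnd ℂ) ((z - b) / (c - b)))
      (fun w => b + (c - b) * (starRingEnd ℂ) ((w - b') / (c' - b'))) (fun w => ?_) ?_, ?_, ?_, ?_, ?_⟩
    · show b' + (c' - b') * (starRingEnd ℂ)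
        ((b + (c - b) * (starRingEnd ℂ) ((w - b') / (c' - b')) - b) / (c - b)) = w
      rw [add_sub_cancel_left, mul_div_cancel_left₀ _ hcb, Complex.conj_conj]
      field_simp; ring
    · refine Isometry.of_dist_eq fun z w => ?_
      rw [dist_eq_norm, dist_eq_norm]
      have : b' + (c' - b') * (starRingEnd ℂ) ((z - b) / (c - b)) -
          (b' + (c' - b') * (starRingEnd ℂ) ((w - b) / (c - b))) =
          (c' - b') * (starRingEnd ℂ) ((z - w) / (c - b)) := by
        simp only [map_div₀, map_sub]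
        ring
      rw [this, norm_mul, RCLike.norm_conj, norm_div, hn3,
        mul_div_cancel₀ _ (norm_ne_zero_iff.2 hcb)]
    · show b' + (c' - b') * (starRingEnd ℂ) ((a - b) / (c - b)) = a'
      rw [ea]; field_simp; ring
    · show b' + (c' - b') * (starRingEnd ℂ) ((b - b) / (c - b)) = b'
      simp
    · show b' + (c' - b') * (starRingEnd ℂ) ((c - b) / (c - b)) = c'
      rw [div_self hcb, map_one]; ring
    · show b' + (c' - b') * (starRingEnd ℂ) ((d - b) / (c - b)) = d'
      rw [ed]; field_simp; ring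
-- END row iso4

-- BEGIN row suf
/-- Sufficiency in the plane. PROOF. If `dist a c = dist b d`: `iso4` for `a' b' c' d'`. If
`dist a b = dist c d`: `iso4` for `d' c' b' a'` (`cr_symm` twice, `reg_symm`). Then `map_reg`. -/
theorem suf {a b c d a' b' c' d' : ℂ} {s t s' t' : ℝ} (hd : Dat a b c d a' b' c' d')
    (h : Cr a b c d s t) (h' : Cr a' b' c' d' s' t') (h1 : dist b c = dist b' c')
    (h2 : dist a b = dist c d ∨ dist a c = dist b d) :
    ∃ φ : ℂ ≃ᵢ ℂ, φ '' reg a b c d = reg a' b' c' d' := by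
  rcases h2 with h2 | h2
  · have h'' := (cr_symm (cr_symm h').2).1
    obtain ⟨φ, e1, e2, e3, e4⟩ := iso4 h h''
      (by rw [h2, hd.C, dist_comm]) (by rw [hd.D, dist_comm]) (by rw [h1, dist_comm])
      (by rw [hd.B, dist_comm]) (by rw [← h2, hd.A, dist_comm])
    refine ⟨φ, ?_⟩
    rw [(map_reg φ a b c d).1, e1, e2, e3, e4, (reg_symm d' b' c' a').1, (reg_symm a' b' c' d').2]
  · obtain ⟨φ, e1, e2, e3, e4⟩ := iso4 h h' hd.A (by rw [h2, hd.B]) h1 (by rw [← h2, hd.D]) hd.C
    refine ⟨φ, ?_⟩
    rw [(map_reg φ a b c d).1, e1, e2, e3, e4]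
-- END row suf

-- BEGIN row plane
/-- The plane theorem. PROOF. `nec` for the points `φ a`, ... (`map_reg`, `φ.isometry.dist_eq`) and
`suf`. -/
theorem plane {a b c d a' b' c' d' : ℂ} {s t s' t' : ℝ} (hd : Dat a b c d a' b' c' d')
    (h : Cr a b c d s t) (h' : Cr a' b' c' d' s' t') :
    (∃ φ : ℂ ≃ᵢ ℂ, φ '' reg a b c d = reg a' b' c' d') ↔
      dist b c = dist b' c' ∧ (dist a b = dist c d ∨ dist a c = dist b d) := by
  constructor
  · rintro ⟨φ, hφ⟩
    have hm := map_reg φ a b c d
    have hd' : Dat (φ a) (φ b) (φ c) (φ d) a' b' c' d' := by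
      constructor
      · rw [φ.isometry.dist_eq]; exact hd.A
      · rw [φ.isometry.dist_eq]; exact hd.B
      · rw [φ.isometry.dist_eq]; exact hd.C
      · rw [φ.isometry.dist_eq]; exact hd.D
      · rw [φ.isometry.dist_eq]; exact hd.E
      · rw [φ.isometry.dist_eq]; exact hd.F
    have hr : reg (φ a) (φ b) (φ c) (φ d) = reg a' b' c' d' := by
      rw [← hm.1]
      exact hφ
    have h2 := nec hd' (hm.2 s t h) h' hr
    simp only [φ.isometry.dist_eq] at h2
    exact h2
  · rintro ⟨h1, h2⟩
    exact suf hd h h' h1 h2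
-- END row plane

/-! ## Space -/

-- BEGIN row aff
/-- Affine independence in elementary form. PROOF. `affineIndependent_iff` (finite type) with the
weights `x`; `Fin.sum_univ_four`. -/
theorem aff {v : Fin 4 → E3} (hv : AffineIndependent ℝ v) (x y z u : ℝ) (h : x + y + z + u = 0)
    (h' : x • v 0 + y • v 1 + z • v 2 + u • v 3 = 0) : x = 0 ∧ y = 0 ∧ z = 0 ∧ u = 0 := by
  rw [affineIndependent_iff] at hv
  have h1 := hv Finset.univ ![x, y, z, u] (by rw [Fin.sum_univ_four]; simpa using h)
    (by rw [Fin.sum_univ_four]; simpa using h')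
  exact ⟨h1 0 (Finset.mem_univ _), h1 1 (Finset.mem_univ _), h1 2 (Finset.mem_univ _),
    h1 3 (Finset.mem_univ _)⟩
-- END row aff

-- BEGIN row aff_sw
/-- The renamed tetrahedron. PROOF. `sw v = v ∘ σ` for a permutation `σ`
(`AffineIndependent.comp_embedding`), or `affineIndependent_iff`. -/
theorem aff_sw {v : Fin 4 → E3} (hv : AffineIndependent ℝ v) : AffineIndependent ℝ (sw v) := by
  have h1 : sw v = v ∘ ![1, 0, 3, 2] := by
    funext i
    fin_cases i <;> rfl
  have h2 : Function.Injective (![1, 0, 3, 2] : Fin 4 → Fin 4) := by decide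
  rw [h1]
  exact hv.comp_embedding ⟨_, h2⟩
-- END row aff_sw

-- BEGIN row dev_cr
/-- A development is a configuration. PROOF. `p 1 ≠ p 2` by `d12` and `hv.injective`; `opp`. -/
theorem dev_cr {w : Fin 4 → E3} (hw : AffineIndependent ℝ w) {p : Fin 4 → ℂ} (h : IsDev w p) :
    ∃ s t : ℝ, Cr (p 0) (p 1) (p 2) (p 3) s t := by
  refine opp ?_ h.opp
  intro h1
  have h2 := h.d12
  rw [h1, dist_self] at h2
  have h3 : w 1 = w 2 := dist_eq_zero.1 h2.symm
  exact absurd (hw.injective h3) (by decide)
-- END row dev_cr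

-- BEGIN row unf
/-- Unfolding two faces increases the distance of the two outer corners. PROOF. `dev_cr`: let
`Z = (1 - t) • w 1 + t • w 2`, `z = (1 - t) • p 1 + t • p 2`. By `stew` (twice each)
`dist (w 0) Z = dist (p 0) z`, `dist (w 3) Z = dist (p 3) z`; `z` is on the segment `p 0, p 3`, so
`dist (p 0) (p 3) = dist (p 0) z + dist z (p 3) = dist (w 0) Z + dist Z (w 3)`. This is
`> dist (w 0) (w 3)`, else `Z` is on the segment `w 0, w 3` (`dist_add_dist_eq_iff`): a relation
between the four points (`aff`) with coefficients `- (1 - r), 1 - t, t, - r`. -/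
theorem unf {w : Fin 4 → E3} (hw : AffineIndependent ℝ w) {p : Fin 4 → ℂ} (h : IsDev w p) :
    dist (w 0) (w 3) < dist (p 0) (p 3) := by
  obtain ⟨s, t, hc⟩ := dev_cr hw h
  have e0 : dist (w 0) ((1 - t) • w 1 + t • w 2) = dist (p 0) ((1 - t) • p 1 + t • p 2) := by
    have h1 := stew (w 0) (w 1) (w 2) t
    have h2 := stew (p 0) (p 1) (p 2) t
    rw [h.d01, h.d02, h.d12] at h2
    exact (pow_left_inj₀ dist_nonneg dist_nonneg two_ne_zero).1 (h1.trans h2.symm)
  have e3 : dist (w 3) ((1 - t) • w 1 + t • w 2) = dist (p 3) ((1 - t) • p 1 + t • p 2) := by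
    have h1 := stew (w 3) (w 1) (w 2) t
    have h2 := stew (p 3) (p 1) (p 2) t
    rw [dist_comm (p 3) (p 1), dist_comm (p 3) (p 2), h.d13, h.d23, h.d12,
      dist_comm (w 1) (w 3), dist_comm (w 2) (w 3)] at h2
    exact (pow_left_inj₀ dist_nonneg dist_nonneg two_ne_zero).1 (h1.trans h2.symm)
  have ez := hc.eq
  have hsum : dist (p 0) (p 3) = dist (p 0) ((1 - t) • p 1 + t • p 2) +
      dist ((1 - t) • p 1 + t • p 2) (p 3) := by
    rw [← ez, dist_eq_norm, dist_eq_norm, dist_eq_norm]
    have a1 : p 0 - ((1 - s) • p 0 + s • p 3) = s • (p 0 - p 3) := by module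
    have a2 : ((1 - s) • p 0 + s • p 3) - p 3 = (1 - s) • (p 0 - p 3) := by module
    rw [a1, a2, norm_smul, norm_smul, Real.norm_of_nonneg hc.s0.le,
      Real.norm_of_nonneg (by linarith [hc.s1])]
    ring
  have htri : dist (w 0) (w 3) ≤ dist (w 0) ((1 - t) • w 1 + t • w 2) +
      dist ((1 - t) • w 1 + t • w 2) (w 3) := dist_triangle _ _ _
  have e3' : dist ((1 - t) • p 1 + t • p 2) (p 3) = dist ((1 - t) • w 1 + t • w 2) (w 3) := by
    rw [dist_comm, ← e3, dist_comm]
  rw [hsum, ← e0, e3']
  refine lt_of_le_of_ne htri fun heq => ?_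
  have hb : Wbtw ℝ (w 0) ((1 - t) • w 1 + t • w 2) (w 3) := dist_add_dist_eq_iff.1 heq.symm
  obtain ⟨r, _, hrZ⟩ := hb
  rw [AffineMap.lineMap_apply_module] at hrZ
  have h4 := aff hw (-(1 - r)) (1 - t) t (-r) (by ring) (by
    have : (-(1 - r)) • w 0 + (1 - t) • w 1 + t • w 2 + (-r) • w 3 =
        ((1 - t) • w 1 + t • w 2) - ((1 - r) • w 0 + r • w 3) := by module
    rw [this, hrZ, sub_self])
  have h5 := h4.1
  have h6 := h4.2.2.2
  linarith
-- END row unf

-- BEGIN row tri
/-- A plane triangle with given corners on the real axis. PROOF. `x = inner (u - v) (w - v) /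
‖w - v‖`, `y = sqrt (‖u - v‖ ^ 2 - x ^ 2)`: positive, since equality in the inequality of
Cauchy-Schwarz makes `u - v` a multiple of `w - v` (`hv`). Then `‖x + y i‖ ^ 2 = ‖u - v‖ ^ 2` and
`‖x + y i - ‖w - v‖‖ ^ 2 = ‖u - v‖ ^ 2 - 2 x ‖w - v‖ + ‖w - v‖ ^ 2 = ‖u - w‖ ^ 2`. -/
theorem tri (u v w : E3) (hn : v ≠ w) (hv : ∀ k : ℝ, u - v ≠ k • (w - v)) :
    ∃ ζ : ℂ, 0 < ζ.im ∧ dist ζ 0 = dist u v ∧ dist ζ (dist v w : ℂ) = dist u w := by
  have hL : 0 < ‖w - v‖ := norm_pos_iff.2 (sub_ne_zero.2 (Ne.symm hn))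
  set a := u - v with ha
  set b := w - v with hb
  set L := ‖b‖ with hLd
  have hpos : 0 < ‖a‖ ^ 2 - (inner ℝ a b / L) ^ 2 := by
    have h1 : 0 < ‖a - (inner ℝ a b / L ^ 2) • b‖ ^ 2 := by
      have : a - (inner ℝ a b / L ^ 2) • b ≠ 0 := sub_ne_zero.2 (hv _)
      positivity
    rw [norm_sub_sq_real, inner_smul_right, norm_smul, Real.norm_eq_abs, mul_pow, sq_abs,
      ← hLd] at h1
    have h2 : ‖a‖ ^ 2 - 2 * (inner ℝ a b / L ^ 2 * inner ℝ a b) + (inner ℝ a b / L ^ 2) ^ 2 * L ^ 2
        = ‖a‖ ^ 2 - (inner ℝ a b / L) ^ 2 := by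
      field_simp
      ring
    linarith
  refine ⟨⟨inner ℝ a b / L, Real.sqrt (‖a‖ ^ 2 - (inner ℝ a b / L) ^ 2)⟩, Real.sqrt_pos.2 hpos,
    ?_, ?_⟩
  · rw [Complex.dist_eq_re_im, dist_eq_norm u v, ← ha]
    simp only [Complex.zero_re, Complex.zero_im, sub_zero]
    rw [Real.sq_sqrt hpos.le]
    rw [show (inner ℝ a b / L) ^ 2 + (‖a‖ ^ 2 - (inner ℝ a b / L) ^ 2) = ‖a‖ ^ 2 by ring]
    exact Real.sqrt_sq (norm_nonneg _)
  · have e1 : dist v w = L := by rw [dist_comm, dist_eq_norm]
    have e2 : dist u w = ‖a - b‖ := by rw [dist_eq_norm, ha, hb]; congr 1; abel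
    rw [Complex.dist_eq_re_im, e1, e2]
    simp only [Complex.ofReal_re, Complex.ofReal_im, sub_zero]
    rw [Real.sq_sqrt hpos.le]
    have e3 : (inner ℝ a b / L - L) ^ 2 + (‖a‖ ^ 2 - (inner ℝ a b / L) ^ 2) = ‖a - b‖ ^ 2 := by
      rw [norm_sub_sq_real a b, ← hLd]
      field_simp
      ring
    rw [e3]
    exact Real.sqrt_sq (norm_nonneg _)
-- END row tri

-- BEGIN row exdev
/-- Developments exist. PROOF. `p 1 = 0`, `p 2 = dist (w 1) (w 2)`, `p 0 = ζ` of `tri` for
`w 0, w 1, w 2` and `p 3 = conj ζ'` with `ζ'` of `tri` for `w 3, w 1, w 2`. Opposite sides: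
`opp_of`, with `s = im ζ / (im ζ + im ζ')` and the real `t` given by the crossing; `Ind` from
`im ζ > 0`. The hypotheses of `tri` by `aff` or by `hw.injective`. -/
theorem exdev {w : Fin 4 → E3} (hw : AffineIndependent ℝ w) : ∃ p, IsDev w p := by
  have h12 : w 1 ≠ w 2 := fun e => absurd (hw.injective e) (by decide)
  have hk0 : ∀ k : ℝ, w 0 - w 1 ≠ k • (w 2 - w 1) := by
    intro k e
    have h4 := aff hw 1 (k - 1) (-k) 0 (by ring) (by
      have : (1 : ℝ) • w 0 + (k - 1) • w 1 + (-k) • w 2 + (0 : ℝ) • w 3 =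
          (w 0 - w 1) - k • (w 2 - w 1) := by module
      rw [this, e, sub_self])
    exact one_ne_zero h4.1
  have hk3 : ∀ k : ℝ, w 3 - w 1 ≠ k • (w 2 - w 1) := by
    intro k e
    have h4 := aff hw 0 (k - 1) (-k) 1 (by ring) (by
      have : (0 : ℝ) • w 0 + (k - 1) • w 1 + (-k) • w 2 + (1 : ℝ) • w 3 =
          (w 3 - w 1) - k • (w 2 - w 1) := by module
      rw [this, e, sub_self])
    exact one_ne_zero h4.2.2.2
  obtain ⟨ζ, hζ, z1, z2⟩ := tri (w 0) (w 1) (w 2) h12 hk0
  obtain ⟨ξ, hξ, x1, x2⟩ := tri (w 3) (w 1) (w 2) h12 hk3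
  have hL : 0 < dist (w 1) (w 2) := dist_pos.2 h12
  have hconj : ∀ u v : ℂ, dist ((starRingEnd ℂ) u) ((starRingEnd ℂ) v) = dist u v := by
    intro u v
    rw [dist_eq_norm, dist_eq_norm, ← map_sub, RCLike.norm_conj]
  refine ⟨![ζ, 0, ((dist (w 1) (w 2) : ℝ) : ℂ), (starRingEnd ℂ) ξ], ⟨?_, ?_, ?_, ?_, ?_, ?_⟩⟩
  · exact z1
  · exact z2
  · change dist (0 : ℂ) ((dist (w 1) (w 2) : ℝ) : ℂ) = dist (w 1) (w 2)
    rw [dist_comm, dist_zero_right, Complex.norm_real, Real.norm_of_nonneg hL.le]
  · change dist (0 : ℂ) ((starRingEnd ℂ) ξ) = dist (w 1) (w 3)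
    rw [dist_comm, dist_comm (w 1), ← x1, ← hconj ξ 0, map_zero]
  · change dist ((dist (w 1) (w 2) : ℝ) : ℂ) ((starRingEnd ℂ) ξ) = dist (w 2) (w 3)
    rw [dist_comm, dist_comm (w 2), ← x2, ← hconj ξ _, Complex.conj_ofReal]
  · change (line[ℝ, (0 : ℂ), ((dist (w 1) (w 2) : ℝ) : ℂ)]).SOppSide ζ ((starRingEnd ℂ) ξ)
    have hs : 0 < ζ.im + ξ.im := add_pos hζ hξ
    obtain ⟨σ, hσ⟩ : ∃ σ : ℝ, σ = ζ.im / (ζ.im + ξ.im) := ⟨_, rfl⟩
    have hσ0 : 0 < σ := hσ ▸ div_pos hζ hs
    have hσ1 : σ < 1 := hσ ▸ (div_lt_one hs).2 (by linarith)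
    have hσe : (1 - σ) * ζ.im = σ * ξ.im := by
      rw [hσ]; field_simp; ring
    obtain ⟨τ, hτ⟩ : ∃ τ : ℝ, τ = ((1 - σ) * ζ.re + σ * ξ.re) / dist (w 1) (w 2) := ⟨_, rfl⟩
    have hτe : τ * dist (w 1) (w 2) = (1 - σ) * ζ.re + σ * ξ.re := by
      rw [hτ]; field_simp
    refine opp_of (s := σ) (t := τ) ⟨?_, hσ0, hσ1, ?_⟩
    · intro x y z hxyz h
      have him := congrArg Complex.im h
      have hre := congrArg Complex.re h
      simp only [Complex.add_im, Complex.smul_im, smul_eq_mul, Complex.zero_im, Complex.ofReal_im,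
        mul_zero, add_zero] at him
      have hx : x = 0 := (mul_eq_zero.1 him).resolve_right hζ.ne'
      simp only [Complex.add_re, Complex.smul_re, smul_eq_mul, Complex.zero_re, Complex.ofReal_re,
        mul_zero, add_zero, hx, zero_mul, zero_add] at hre
      have hz : z = 0 := (mul_eq_zero.1 hre).resolve_right hL.ne'
      exact ⟨hx, by rw [hx, hz] at hxyz; linarith, hz⟩
    · apply Complex.ext
      · simp only [Complex.add_re, Complex.smul_re, smul_eq_mul, Complex.zero_re,
          Complex.ofReal_re, Complex.conj_re, mul_zero, zero_add]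
        exact hτe.symm
      · simp only [Complex.add_im, Complex.smul_im, smul_eq_mul, Complex.zero_im,
          Complex.ofReal_im, Complex.conj_im, mul_zero, zero_add]
        linarith
-- END row exdev

-- BEGIN row len_ge
/-- A path is at least as long as the distance of its ends. PROOF. `dist_le_range_sum_dist`. -/
theorem len_ge (S : Set E3) (x y : E3) (n : ℕ) (c : ℕ → E3) (h : IsPath S x y n c) :
    dist x y ≤ len n c := by
  obtain ⟨h0, h1, _⟩ := h
  rw [← h0, ← h1]
  exact dist_le_range_sum_dist c n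
-- END row len_ge

-- BEGIN row face_sub
/-- Two faces are in the surface. PROOF. `i = 3` and `i = 0`: `convexHull_mono` or equality of the
sets `{v 0, v 1, v 2}` and `v '' {j | j ≠ 3}`. -/
theorem face_sub (v : Fin 4 → E3) : convexHull ℝ {v 0, v 1, v 2} ⊆ Surf v ∧
    convexHull ℝ {v 1, v 2, v 3} ⊆ Surf v := by
  refine ⟨fun y hy => ⟨3, convexHull_mono ?_ hy⟩, fun y hy => ⟨0, convexHull_mono ?_ hy⟩⟩
  · rintro z (rfl | rfl | rfl)
    exacts [⟨0, by decide, rfl⟩, ⟨1, by decide, rfl⟩, ⟨2, by decide, rfl⟩]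
  · rintro z (rfl | rfl | rfl)
    exacts [⟨1, by decide, rfl⟩, ⟨2, by decide, rfl⟩, ⟨3, by decide, rfl⟩]
-- END row face_sub

-- BEGIN row least_face
/-- In a face the straight segment is shortest. PROOF. The path with `n = 1` and corners `x`,
`v i` (`fun k => if k = 0 then x else v i`) is in the face `v 0, v 1, v 2` by convexity; `len_ge`. -/
theorem least_face (v : Fin 4 → E3) (x : E3) (hx : x ∈ convexHull ℝ {v 0, v 1, v 2}) (i : Fin 4)
    (hi : i ≠ 3) : IsLeastLen v x (v i) (dist x (v i)) := by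
  refine ⟨⟨1, fun k => if k = 0 then x else v i, ⟨by simp, by simp, ?_⟩, by simp [len]⟩,
    fun n c h => len_ge _ _ _ _ _ h⟩
  intro k hk
  obtain rfl : k = 0 := by omega
  have e1 : (fun k : ℕ => if k = 0 then x else v i) 0 = x := by simp
  have e2 : (fun k : ℕ => if k = 0 then x else v i) (0 + 1) = v i := by simp
  rw [e1, e2]
  refine ((convex_convexHull ℝ _).segment_subset hx (subset_convexHull ℝ _ ?_)).trans
    (face_sub v).1
  fin_cases i <;> simp at hi ⊢
-- END row least_face

-- BEGIN row tri_iso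
private theorem tri_iso_sq {V : Type*} [NormedAddCommGroup V] [InnerProductSpace ℝ V]
    (a b c : V) (p q r : ℝ) (h : p + q + r = 0) :
    ‖p • a + q • b + r • c‖ ^ 2 =
      - (p * q * dist a b ^ 2 + p * r * dist a c ^ 2 + q * r * dist b c ^ 2) := by
  have hr : r = - p - q := by linarith
  have e1 : p • a + q • b + r • c = p • (a - c) + q • (b - c) := by
    rw [hr]
    module
  have e2 : a - b = (a - c) - (b - c) := by abel
  have h1 : ‖p • (a - c) + q • (b - c)‖ ^ 2 =
      p ^ 2 * ‖a - c‖ ^ 2 + 2 * (p * q * inner ℝ (a - c) (b - c)) + q ^ 2 * ‖b - c‖ ^ 2 := by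
    rw [norm_add_sq_real, norm_smul, norm_smul, inner_smul_left, inner_smul_right, mul_pow, mul_pow,
      Real.norm_eq_abs, Real.norm_eq_abs, sq_abs, sq_abs]
    simp only [conj_trivial]
    ring
  have h2 : ‖(a - c) - (b - c)‖ ^ 2 =
      ‖a - c‖ ^ 2 - 2 * inner ℝ (a - c) (b - c) + ‖b - c‖ ^ 2 := norm_sub_sq_real _ _
  rw [e1, h1, dist_eq_norm, dist_eq_norm, dist_eq_norm, e2, h2, hr]
  ring

/-- The affine image of a point of a face. PROOF. `x = α • a + β • b + γ • c` with sum `1`. The
square of the distance of two points with weights `α, β, γ` and `α', β', γ'` (sums `1`) is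
`- (δ₁ δ₂ |ab|² + δ₁ δ₃ |ac|² + δ₂ δ₃ |bc|²)` with `δ` the differences of the weights (sum zero), in
each real inner product space; so equal distances of the corners give equal distances. -/
theorem tri_iso {V W : Type*} [NormedAddCommGroup V] [InnerProductSpace ℝ V]
    [NormedAddCommGroup W] [InnerProductSpace ℝ W] (a b c : V) (a' b' c' : W)
    (h1 : dist a b = dist a' b') (h2 : dist a c = dist a' c') (h3 : dist b c = dist b' c')
    (α β γ α' β' γ' : ℝ) (hs : α + β + γ = 1) (hs' : α' + β' + γ' = 1) :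
    dist (α • a + β • b + γ • c) (α' • a + β' • b + γ' • c) =
      dist (α • a' + β • b' + γ • c') (α' • a' + β' • b' + γ' • c') := by
  have e1 : α • a + β • b + γ • c - (α' • a + β' • b + γ' • c) =
      (α - α') • a + (β - β') • b + (γ - γ') • c := by module
  have e2 : α • a' + β • b' + γ • c' - (α' • a' + β' • b' + γ' • c') =
      (α - α') • a' + (β - β') • b' + (γ - γ') • c' := by module
  have h0 : (α - α') + (β - β') + (γ - γ') = 0 := by linarith
  have h4 := tri_iso_sq a b c _ _ _ h0
  have h5 := tri_iso_sq a' b' c' _ _ _ h0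
  rw [← h1, ← h2, ← h3, ← h4] at h5
  rw [dist_eq_norm, dist_eq_norm, e1, e2]
  exact ((sq_eq_sq₀ (norm_nonneg _) (norm_nonneg _)).1 h5).symm
-- END row tri_iso

-- BEGIN row straight
/-- A shortest path that crosses the hinge inside is straight in the development. PROOF. `X` is on
the side of `a` or on the line, `d` is on the other side; so the segment `X d` meets the line `b c`
in a point `z = (1 - k) • b + k • c` for a real `k`, and `dist X d = dist X z + dist z d`. (With the
weights of `X`: `X = α • a + β • b + γ • c`, and `d` by `eq`: the point `(1 - r) • X + r • d` has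
the weight `(1 - r) α - r (1 - s) / s` at `a`, zero for `r = α s / (α s + 1 - s)`, in `[0, 1)`.)
The function `f k = dist X ((1 - k) • b + k • c) + dist ((1 - k) • b + k • c) d` is convex on the
reals. If `f k < f q`, the convexity on the segment from `q` to `k` gives a smaller value than `f q`
close to `q`, inside `[0, 1]`: against `hmin`. So `f q ≤ f k = dist X d`, and `≥` is the triangle
inequality. -/
theorem straight {a b c d : ℂ} {s t : ℝ} (h : Cr a b c d s t) (X : ℂ)
    (hX : X ∈ convexHull ℝ {a, b, c}) (q : ℝ) (q0 : 0 < q) (q1 : q < 1)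
    (hmin : ∀ k : ℝ, 0 ≤ k → k ≤ 1 →
      dist X ((1 - q) • b + q • c) + dist ((1 - q) • b + q • c) d ≤
        dist X ((1 - k) • b + k • c) + dist ((1 - k) • b + k • c) d) :
    dist X ((1 - q) • b + q • c) + dist ((1 - q) • b + q • c) d = dist X d := by
  obtain ⟨x, y, z, hx, hy, hz, hs, rfl⟩ := (hull3 a b c X).1 hX
  set X := x • a + y • b + z • c with hXd
  have s0 := h.s0
  have s1 := h.s1
  have hD : 0 < x * s + 1 - s := by nlinarith [mul_nonneg hx s0.le]
  set r := x * s / (x * s + 1 - s) with hr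
  have r0 : 0 ≤ r := div_nonneg (mul_nonneg hx s0.le) hD.le
  have r1 : r ≤ 1 := by rw [hr, div_le_one hD]; linarith
  set k := (1 - r) * z + r * t / s with hk
  have hP : (1 - r) • X + r • d = (1 - k) • b + k • c := by
    have h1 := h.eq
    simp only [Complex.real_smul] at h1 ⊢
    have hsC : (s : ℂ) ≠ 0 := by exact_mod_cast s0.ne'
    have hd : d = ((1 - t) * b + t * c - (1 - s) * a) / s := by
      rw [eq_div_iff hsC]
      push_cast at h1
      linear_combination h1
    have hy' : y = 1 - x - z := by linarith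
    have hDC : ((x : ℂ) * s + 1 - s) ≠ 0 := by
      have : ((x * s + 1 - s : ℝ) : ℂ) ≠ 0 := by exact_mod_cast hD.ne'
      push_cast at this
      exact this
    rw [hXd]
    simp only [Complex.real_smul]
    rw [hd, hk, hr, hy']
    push_cast
    field_simp
    ring
  have hseg : dist X ((1 - k) • b + k • c) + dist ((1 - k) • b + k • c) d = dist X d := by
    apply dist_add_dist_of_mem_segment
    rw [← hP]
    exact ⟨1 - r, r, by linarith, r0, by ring, rfl⟩
  refine le_antisymm ?_ (dist_triangle _ _ _)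
  by_contra hlt
  rw [not_le] at hlt
  set m := min q (1 - q) / (|k - q| + 1) with hm
  have habs := abs_nonneg (k - q)
  have hq : 0 < min q (1 - q) := lt_min q0 (by linarith)
  have m0 : 0 < m := div_pos hq (by linarith)
  have m1 : m ≤ 1 := by
    rw [hm, div_le_one (by linarith)]
    exact (min_le_left _ _).trans (by linarith)
  have mk : m * |k - q| ≤ min q (1 - q) := by
    have e : m * (|k - q| + 1) = min q (1 - q) := by
      rw [hm]; field_simp
    linarith
  have mk1 : m * (k - q) ≤ 1 - q := (mul_le_mul_of_nonneg_left (le_abs_self _) m0.le).trans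
    (mk.trans (min_le_right _ _))
  have mk2 : - q ≤ m * (k - q) := by
    have := mul_le_mul_of_nonneg_left (neg_abs_le (k - q)) m0.le
    have h2 := mk.trans (min_le_left _ _)
    linarith
  have hm' := hmin (q + m * (k - q)) (by linarith) (by linarith)
  have hPt : (1 - (q + m * (k - q))) • b + (q + m * (k - q)) • c =
      (1 - m) • ((1 - q) • b + q • c) + m • ((1 - k) • b + k • c) := by
    module
  rw [hPt] at hm'
  set Q := (1 - q) • b + q • c with hQ
  set K := (1 - k) • b + k • c with hK
  have c1 : dist X ((1 - m) • Q + m • K) ≤ (1 - m) * dist X Q + m * dist X K := by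
    rw [dist_eq_norm, dist_eq_norm, dist_eq_norm, show X - ((1 - m) • Q + m • K) =
      (1 - m) • (X - Q) + m • (X - K) by module]
    refine (norm_add_le _ _).trans ?_
    rw [norm_smul, norm_smul, Real.norm_eq_abs, Real.norm_eq_abs, abs_of_nonneg (by linarith),
      abs_of_nonneg m0.le]
  have c2 : dist ((1 - m) • Q + m • K) d ≤ (1 - m) * dist Q d + m * dist K d := by
    rw [dist_eq_norm, dist_eq_norm, dist_eq_norm, show (1 - m) • Q + m • K - d =
      (1 - m) • (Q - d) + m • (K - d) by module]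
    refine (norm_add_le _ _).trans ?_
    rw [norm_smul, norm_smul, Real.norm_eq_abs, Real.norm_eq_abs, abs_of_nonneg (by linarith),
      abs_of_nonneg m0.le]
  have : m * (dist X K + dist K d) < m * (dist X Q + dist Q d) := by
    rw [hseg]
    exact mul_lt_mul_of_pos_left hlt m0
  nlinarith
-- END row straight

-- BEGIN row two_leg
/-- Two legs over the hinge make a path on the surface. PROOF. `n = 2`, corners `x`, `y`, `v 3`;
the legs are in the faces `v 0, v 1, v 2` and `v 1, v 2, v 3` by convexity, `face_sub`. -/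
theorem two_leg (v : Fin 4 → E3) (x y : E3) (hx : x ∈ convexHull ℝ {v 0, v 1, v 2})
    (hy : y ∈ segment ℝ (v 1) (v 2)) :
    ∃ n c, IsPath (Surf v) x (v 3) n c ∧ len n c = dist x y + dist y (v 3) := by
  have hy1 : y ∈ convexHull ℝ {v 0, v 1, v 2} :=
    segment_subset_convexHull (by simp) (by simp) hy
  have hy2 : y ∈ convexHull ℝ {v 1, v 2, v 3} :=
    segment_subset_convexHull (by simp) (by simp) hy
  have h3 : v 3 ∈ convexHull ℝ {v 1, v 2, v 3} := subset_convexHull ℝ _ (by simp)
  refine ⟨2, fun k => if k = 0 then x else if k = 1 then y else v 3, ⟨rfl, rfl, ?_⟩, ?_⟩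
  · intro i hi
    rcases Nat.lt_or_ge i 1 with h | h
    · obtain rfl : i = 0 := by omega
      exact ((convex_convexHull ℝ _).segment_subset hx hy1).trans (face_sub v).1
    · obtain rfl : i = 1 := by omega
      exact ((convex_convexHull ℝ _).segment_subset hy2 h3).trans (face_sub v).2
  · unfold len
    rw [Finset.sum_range_succ, Finset.sum_range_one]
    rfl
-- END row two_leg

-- BEGIN row source
private theorem source_seg (X Q P : ℂ) (h : dist X Q + dist Q P = dist X P) (A B : Set ℂ)
    (hA : Convex ℝ A) (hB : Convex ℝ B) (hX : X ∈ A) (hQ : Q ∈ A) (hQ' : Q ∈ B) (hP : P ∈ B) :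
    segment ℝ X P ⊆ A ∪ B := by
  have hw : Wbtw ℝ X Q P := dist_add_dist_eq_iff.1 h
  intro y hy
  rw [← insert_endpoints_openSegment] at hy
  rcases hy with rfl | rfl | hy
  · exact Or.inl hX
  · exact Or.inr hP
  · have hr : Q ∈ range (AffineMap.lineMap X P : ℝ → ℂ) := by
      obtain ⟨r, _, hr⟩ := hw
      exact ⟨r, hr⟩
    rcases openSegment_subset_union X P hr hy with rfl | hy | hy
    · exact Or.inl hQ
    · exact Or.inl (hA.segment_subset hX hQ (openSegment_subset_segment ℝ _ _ hy))
    · exact Or.inr (hB.segment_subset hQ' hP (openSegment_subset_segment ℝ _ _ hy))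

/-- The anticore. PROOF. `x = α • v 0 + β • v 1 + γ • v 2` (`hull3`),
`X = α • p 0 + β • p 1 + γ • p 2`. For `i ≠ 3`: `dist X (p i) = dist x (v i)` by `tri_iso`, and
`least_face`; the segment is in the first triangle. For `i = 3`: `q = (1 - k) • v 1 + k • v 2`; the
distances of `x` and `v 3` to all points of the hinge are those of `X` and `p 3` (`tri_iso` for the
two faces); `two_leg` and `hmin` give the hypothesis of `straight` (`dev_cr`), so the least length
is `dist X (p 3)`, and the point `(1 - k) • p 1 + k • p 2` is on the segment `X, p 3`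
(`dist_add_dist_eq_iff`), which is the union of two segments, one in each triangle. -/
theorem source {v : Fin 4 → E3} (hv : AffineIndependent ℝ v) {p : Fin 4 → ℂ} (h : IsDev v p)
    (x : E3) (hx : x ∈ convexHull ℝ {v 0, v 1, v 2}) (q : E3)
    (hq : q ∈ openSegment ℝ (v 1) (v 2))
    (hmin : ∀ n c, IsPath (Surf v) x (v 3) n c → dist x q + dist q (v 3) ≤ len n c) :
    ∃ X ∈ reg (p 0) (p 1) (p 2) (p 3), ∀ i, IsLeastLen v x (v i) (dist X (p i)) ∧
      segment ℝ X (p i) ⊆ reg (p 0) (p 1) (p 2) (p 3) := by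
  obtain ⟨s, t, hc⟩ := dev_cr hv h
  obtain ⟨α, β, γ, ha, hb, hg, hs, hxe⟩ := (hull3 _ _ _ _).1 hx
  obtain ⟨l, k, hl, hk, hlk, hqe⟩ := hq
  have hlk' : l = 1 - k := by linarith
  subst hlk'
  have hXm : α • p 0 + β • p 1 + γ • p 2 ∈ convexHull ℝ {p 0, p 1, p 2} :=
    (hull3 _ _ _ _).2 ⟨α, β, γ, ha, hb, hg, hs, rfl⟩
  have iso1 : ∀ α' β' γ' : ℝ, α' + β' + γ' = 1 →
      dist x (α' • v 0 + β' • v 1 + γ' • v 2) =
        dist (α • p 0 + β • p 1 + γ • p 2) (α' • p 0 + β' • p 1 + γ' • p 2) := by
    intro α' β' γ' hs'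
    rw [← hxe]
    exact tri_iso _ _ _ _ _ _ h.d01.symm h.d02.symm h.d12.symm _ _ _ _ _ _ hs hs'
  have hinge : ∀ r : ℝ, dist x ((1 - r) • v 1 + r • v 2) =
      dist (α • p 0 + β • p 1 + γ • p 2) ((1 - r) • p 1 + r • p 2) := by
    intro r
    have := iso1 0 (1 - r) r (by ring)
    simpa only [zero_smul, zero_add] using this
  have hinge' : ∀ r : ℝ, dist ((1 - r) • v 1 + r • v 2) (v 3) =
      dist ((1 - r) • p 1 + r • p 2) (p 3) := by
    intro r
    have := tri_iso (v 1) (v 2) (v 3) (p 1) (p 2) (p 3) h.d12.symm h.d13.symm h.d23.symm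
      (1 - r) r 0 0 0 1 (by ring) (by ring)
    simpa only [zero_smul, zero_add, add_zero, one_smul] using this
  have hseg : ∀ r : ℝ, 0 ≤ r → r ≤ 1 → (1 - r) • v 1 + r • v 2 ∈ segment ℝ (v 1) (v 2) :=
    fun r h0 h1 => ⟨1 - r, r, by linarith, h0, by ring, rfl⟩
  have hst := straight hc _ hXm k hk (by linarith) (by
    intro r h0 h1
    obtain ⟨n, c, hp, hlen⟩ := two_leg v x _ hx (hseg r h0 h1)
    have h2 := hmin n c hp
    rw [hlen, ← hqe, hinge, hinge', hinge, hinge'] at h2
    exact h2)
  have hQ1 : (1 - k) • p 1 + k • p 2 ∈ convexHull ℝ {p 0, p 1, p 2} :=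
    (hull3 _ _ _ _).2 ⟨0, 1 - k, k, le_refl _, by linarith, hk.le, by ring, by
      simp only [zero_smul, zero_add]⟩
  have hQ2 : (1 - k) • p 1 + k • p 2 ∈ convexHull ℝ {p 1, p 2, p 3} :=
    (hull3 _ _ _ _).2 ⟨1 - k, k, 0, by linarith, hk.le, le_refl _, by ring, by
      simp only [zero_smul, add_zero]⟩
  have hP : p 3 ∈ convexHull ℝ {p 1, p 2, p 3} := subset_convexHull ℝ _ (by simp)
  refine ⟨α • p 0 + β • p 1 + γ • p 2, Or.inl hXm, fun i => ?_⟩
  by_cases hi : i = 3
  · subst hi
    refine ⟨⟨?_, ?_⟩, ?_⟩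
    · obtain ⟨n, c, hp, hlen⟩ := two_leg v x _ hx (hseg k hk.le (by linarith))
      refine ⟨n, c, hp, ?_⟩
      rw [hlen, hinge, hinge', hst]
    · intro n c hp
      have h2 := hmin n c hp
      rw [← hqe, hinge, hinge', hst] at h2
      exact h2
    · exact source_seg _ _ _ hst _ _ (convex_convexHull ℝ _) (convex_convexHull ℝ _) hXm hQ1 hQ2 hP
  · have hd : dist x (v i) = dist (α • p 0 + β • p 1 + γ • p 2) (p i) := by
      have e0 := iso1 1 0 0 (by ring)
      have e1 := iso1 0 1 0 (by ring)
      have e2 := iso1 0 0 1 (by ring)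
      simp only [zero_smul, zero_add, add_zero, one_smul] at e0 e1 e2
      fin_cases i
      · exact e0
      · exact e1
      · exact e2
      · exact absurd rfl hi
    have hm : p i ∈ convexHull ℝ {p 0, p 1, p 2} := by
      apply subset_convexHull ℝ _
      fin_cases i
      · simp
      · simp
      · simp
      · exact absurd rfl hi
    refine ⟨?_, ?_⟩
    · rw [← hd]
      exact least_face v x hx i hi
    · exact ((convex_convexHull ℝ _).segment_subset hXm hm).trans subset_union_left
-- END row source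

-- BEGIN row cong
/-- Core and anticore are congruent iff the two hinges are equal and one more pair of opposite edges
is equal. PROOF. `dev_cr` for `p` and for `r` (`aff_sw`), `Dat` from `IsDev` and `unf` (for `v` and
for `sw v`), then `plane`; `sw v 0 = v 1` and so on by `rfl`. -/
theorem cong {v : Fin 4 → E3} (hv : AffineIndependent ℝ v) {p r : Fin 4 → ℂ} (h : IsDev v p)
    (h' : IsDev (sw v) r) :
    (∃ φ : ℂ ≃ᵢ ℂ, φ '' reg (p 0) (p 1) (p 2) (p 3) = reg (r 0) (r 1) (r 2) (r 3)) ↔
      dist (v 1) (v 2) = dist (v 0) (v 3) ∧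
        (dist (v 0) (v 1) = dist (v 2) (v 3) ∨ dist (v 0) (v 2) = dist (v 1) (v 3)) := by
  obtain ⟨s, t, hc⟩ := dev_cr hv h
  obtain ⟨s', t', hc'⟩ := dev_cr (aff_sw hv) h'
  have e01 : dist (r 0) (r 1) = dist (v 1) (v 0) := h'.d01
  have e02 : dist (r 0) (r 2) = dist (v 1) (v 3) := h'.d02
  have e12 : dist (r 1) (r 2) = dist (v 0) (v 3) := h'.d12
  have e13 : dist (r 1) (r 3) = dist (v 0) (v 2) := h'.d13
  have e23 : dist (r 2) (r 3) = dist (v 3) (v 2) := h'.d23
  have u : dist (v 0) (v 3) < dist (p 0) (p 3) := unf hv h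
  have u' : dist (v 1) (v 2) < dist (r 0) (r 3) := unf (aff_sw hv) h'
  have hD : Dat (p 0) (p 1) (p 2) (p 3) (r 0) (r 1) (r 2) (r 3) := by
    constructor
    · rw [h.d01, e01, dist_comm]
    · rw [h.d13, e02]
    · rw [h.d23, e23, dist_comm]
    · rw [h.d02, e13]
    · rw [h.d12]
      exact u'
    · rw [e12]
      exact u
  rw [plane hD hc hc', h.d12, e12, h.d01, h.d23, h.d02, h.d13]
-- END row cong

-- BEGIN row deriv
/-- First variation. PROOF. Let `A = ‖x - p‖ > 0`, `G = ‖g - p‖ > 0`. For `k` in `(0, 1]` the number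
`m = ‖x - p - k • e‖ ^ 2 = A ^ 2 - 2 k inner (x - p) e + k ^ 2 ‖e‖ ^ 2` has `sqrt m ≤
(A ^ 2 + m) / (2 A)`, so `dist x (p + k • e) ≤ A - k inner (x - p) e / A + k ^ 2 ‖e‖ ^ 2 / (2 A)`; the
same for `g`. Add, use `hmin`, divide by `k` and let `k` go to zero (or take `k` small against a
positive value of the left side). -/
theorem deriv (x g p e : E3) (hx : x ≠ p) (hg : g ≠ p)
    (hmin : ∀ k : ℝ, 0 ≤ k → k ≤ 1 → dist x p + dist p g ≤ dist x (p + k • e) + dist (p + k • e) g) :
    inner ℝ ((1 / ‖x - p‖) • (x - p) + (1 / ‖g - p‖) • (g - p)) e ≤ 0 := by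
  have hA : 0 < ‖x - p‖ := norm_pos_iff.2 (sub_ne_zero.2 hx)
  have hG : 0 < ‖g - p‖ := norm_pos_iff.2 (sub_ne_zero.2 hg)
  have key : ∀ (y : E3) (k : ℝ), 0 < ‖y - p‖ → dist y (p + k • e) ≤
      ‖y - p‖ - k * (inner ℝ (y - p) e / ‖y - p‖) + k ^ 2 * (‖e‖ ^ 2 / (2 * ‖y - p‖)) := by
    intro y k hy
    have h1 : y - (p + k • e) = (y - p) - k • e := by abel
    rw [dist_eq_norm, h1]
    have h2 : ‖(y - p) - k • e‖ ^ 2 =
        ‖y - p‖ ^ 2 - 2 * (k * inner ℝ (y - p) e) + k ^ 2 * ‖e‖ ^ 2 := by
      rw [norm_sub_sq_real, real_inner_smul_right, norm_smul, mul_pow, Real.norm_eq_abs, sq_abs]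
    have h3 : 0 ≤ (‖(y - p) - k • e‖ - ‖y - p‖) ^ 2 := sq_nonneg _
    have h4 : 2 * ‖y - p‖ * ‖(y - p) - k • e‖ ≤
        2 * ‖y - p‖ ^ 2 - 2 * (k * inner ℝ (y - p) e) + k ^ 2 * ‖e‖ ^ 2 := by nlinarith
    have h5 : ‖y - p‖ - k * (inner ℝ (y - p) e / ‖y - p‖) + k ^ 2 * (‖e‖ ^ 2 / (2 * ‖y - p‖)) =
        (2 * ‖y - p‖ ^ 2 - 2 * (k * inner ℝ (y - p) e) + k ^ 2 * ‖e‖ ^ 2) / (2 * ‖y - p‖) := by
      field_simp
    rw [h5, le_div_iff₀ (by positivity)]
    linarith
  obtain ⟨s, hs⟩ : ∃ s : ℝ, s = inner ℝ (x - p) e / ‖x - p‖ + inner ℝ (g - p) e / ‖g - p‖ :=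
    ⟨_, rfl⟩
  obtain ⟨c, hc⟩ : ∃ c : ℝ, c = ‖e‖ ^ 2 / (2 * ‖x - p‖) + ‖e‖ ^ 2 / (2 * ‖g - p‖) := ⟨_, rfl⟩
  have hc0 : 0 ≤ c := by
    rw [hc]
    positivity
  have hall : ∀ k : ℝ, 0 < k → k ≤ 1 → s ≤ k * c := by
    intro k k0 k1
    have h1 := hmin k k0.le k1
    have h2 := key x k hA
    have h3 := key g k hG
    rw [dist_comm (p + k • e) g, dist_comm p g, dist_eq_norm x p, dist_eq_norm g p] at h1
    have h4 : 0 ≤ k * (k * c - s) := by
      rw [hc, hs]
      have h5 : k * (k * (‖e‖ ^ 2 / (2 * ‖x - p‖) + ‖e‖ ^ 2 / (2 * ‖g - p‖)) -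
          (inner ℝ (x - p) e / ‖x - p‖ + inner ℝ (g - p) e / ‖g - p‖)) =
          (‖x - p‖ - k * (inner ℝ (x - p) e / ‖x - p‖) + k ^ 2 * (‖e‖ ^ 2 / (2 * ‖x - p‖))) +
          (‖g - p‖ - k * (inner ℝ (g - p) e / ‖g - p‖) + k ^ 2 * (‖e‖ ^ 2 / (2 * ‖g - p‖))) -
          (‖x - p‖ + ‖g - p‖) := by ring
      rw [h5]
      linarith
    have h6 := nonneg_of_mul_nonneg_right h4 k0
    linarith
  have hgoal : inner ℝ ((1 / ‖x - p‖) • (x - p) + (1 / ‖g - p‖) • (g - p)) e = s := by
    rw [inner_add_left, real_inner_smul_left, real_inner_smul_left, hs]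
    ring
  rw [hgoal]
  by_contra hpos
  rw [not_le] at hpos
  have h7 := hall (min 1 (s / (c + 1))) (lt_min one_pos (by positivity)) (min_le_left _ _)
  have h8 : min 1 (s / (c + 1)) * c ≤ s / (c + 1) * c :=
    mul_le_mul_of_nonneg_right (min_le_right _ _) hc0
  have h9 : s / (c + 1) * c < s := by
    rw [div_mul_eq_mul_div, div_lt_iff₀ (by linarith)]
    nlinarith
  linarith
-- END row deriv

-- BEGIN row corner
/-- A shortest path does not pass a vertex. Here `p, a, c, g` are the four vertices.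
PROOF. Suppose the corner `p` is at most as long as all points of the edges `p a` and `p c`. With
`u = (x - p) / ‖x - p‖`, `h = (g - p) / ‖g - p‖`: `deriv` for `e = a - p` and `e = c - p` gives
`inner (u + h) (a - p) ≤ 0`, `inner (u + h) (c - p) ≤ 0`, and `x - p = α • (a - p) + γ • (c - p)`
with `α, γ ≥ 0` (`hx`), so `inner (u + h) u ≤ 0`, that is `1 + inner h u ≤ 0`; as `‖h + u‖ ^ 2 =
2 + 2 inner h u ≤ 0`, `h = - u`: a relation between `g, p, a, c` with coefficient of `g` not
zero, against `hi`. -/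
theorem corner (x g p a c : E3) (hx : x ∈ convexHull ℝ {a, p, c}) (hp : x ≠ p)
    (hi : ∀ k l : ℝ, g - p ≠ k • (a - p) + l • (c - p)) :
    ∃ y ∈ segment ℝ p a ∪ segment ℝ p c, dist x y + dist y g < dist x p + dist p g := by
  by_contra hcon
  push Not at hcon
  obtain ⟨α, β, γ, hα, hβ, hγ, hs, he⟩ := (hull3 _ _ _ _).1 hx
  have hxp : x - p = α • (a - p) + γ • (c - p) := by
    rw [← he]
    have : p = (α + β + γ) • p := by rw [hs, one_smul]
    nth_rewrite 2 [this]
    module
  have hg : g ≠ p := by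
    intro h
    refine hi 0 0 ?_
    rw [h]
    simp
  have hA : 0 < ‖x - p‖ := norm_pos_iff.2 (sub_ne_zero.2 hp)
  have hG : 0 < ‖g - p‖ := norm_pos_iff.2 (sub_ne_zero.2 hg)
  have ha := deriv x g p (a - p) hp hg (fun k hk0 hk1 => by
    refine hcon _ (Or.inl ?_)
    refine ⟨1 - k, k, by linarith, hk0, by ring, ?_⟩
    module)
  have hc := deriv x g p (c - p) hp hg (fun k hk0 hk1 => by
    refine hcon _ (Or.inr ?_)
    refine ⟨1 - k, k, by linarith, hk0, by ring, ?_⟩
    module)
  obtain ⟨u, hu⟩ : ∃ u : E3, u = (1 / ‖x - p‖) • (x - p) := ⟨_, rfl⟩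
  obtain ⟨h, hh⟩ : ∃ h : E3, h = (1 / ‖g - p‖) • (g - p) := ⟨_, rfl⟩
  rw [← hu, ← hh] at ha hc
  have hun : ‖u‖ = 1 := by
    rw [hu, norm_smul, Real.norm_of_nonneg (by positivity)]
    field_simp
  have hhn : ‖h‖ = 1 := by
    rw [hh, norm_smul, Real.norm_of_nonneg (by positivity)]
    field_simp
  have h1 : inner ℝ (u + h) (x - p) ≤ 0 := by
    rw [hxp, inner_add_right, real_inner_smul_right, real_inner_smul_right]
    nlinarith [mul_nonneg hα (neg_nonneg.2 ha), mul_nonneg hγ (neg_nonneg.2 hc)]
  have h2 : inner ℝ (u + h) u ≤ 0 := by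
    rw [hu, real_inner_smul_right, ← hu]
    exact mul_nonpos_of_nonneg_of_nonpos (by positivity) h1
  have h3 : ‖u + h‖ ^ 2 ≤ 0 := by
    rw [norm_add_sq_real, hun, hhn]
    rw [inner_add_left, real_inner_self_eq_norm_sq, hun, real_inner_comm] at h2
    nlinarith
  have h4 : u + h = 0 := by
    have : ‖u + h‖ = 0 := by
      have := sq_nonneg ‖u + h‖
      exact pow_eq_zero_iff (two_ne_zero) |>.1 (le_antisymm h3 this)
    exact norm_eq_zero.1 this
  have h5 : h = -u := eq_neg_of_add_eq_zero_right h4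
  obtain ⟨R, hR⟩ : ∃ R : ℝ, R = ‖g - p‖ * (1 / ‖x - p‖) := ⟨_, rfl⟩
  have h6 : g - p = (-R) • (x - p) := by
    have h7 : g - p = ‖g - p‖ • h := by
      rw [hh, smul_smul, mul_one_div_cancel hG.ne', one_smul]
    rw [h5, hu, smul_neg, smul_smul, ← hR] at h7
    rw [h7, neg_smul]
  refine hi (-(R * α)) (-(R * γ)) ?_
  rw [h6, hxp]
  module
-- END row corner

-- BEGIN row edge_of
private theorem edge_of_seg (a b : E3) (x y : ℝ) (hx : 0 ≤ x) (hy : 0 ≤ y) (h : x + y = 1) :
    x • a + y • b ∈ segment ℝ a b := ⟨x, y, hx, hy, h, rfl⟩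

private theorem edge_of_set (v : Fin 4 → E3) (i a b c : Fin 4)
    (h : ∀ j, j ≠ i ↔ j = a ∨ j = b ∨ j = c) :
    v '' {j | j ≠ i} = {v a, v b, v c} := by
  ext w
  simp only [Set.mem_image, Set.mem_ofPred_eq, Set.mem_insert_iff, Set.mem_singleton_iff]
  constructor
  · rintro ⟨j, hj, rfl⟩
    rcases (h j).1 hj with rfl | rfl | rfl <;> simp
  · rintro (rfl | rfl | rfl)
    · exact ⟨a, (h a).2 (Or.inl rfl), rfl⟩
    · exact ⟨b, (h b).2 (Or.inr (Or.inl rfl)), rfl⟩
    · exact ⟨c, (h c).2 (Or.inr (Or.inr rfl)), rfl⟩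

/-- Two faces meet in an edge. PROOF. `y` is in the hull of `v '' {j | j ≠ i}`, `i ≠ 3`: its weight
at `v i` is zero (weights are unique by `aff`), and its weight at `v 3` is zero. -/
theorem edge_of {v : Fin 4 → E3} (hv : AffineIndependent ℝ v) (y : E3) (i : Fin 4) (hi : i ≠ 3)
    (hy : y ∈ convexHull ℝ (v '' {j | j ≠ i})) (hy' : y ∈ convexHull ℝ {v 0, v 1, v 2}) :
    y ∈ segment ℝ (v 0) (v 1) ∪ segment ℝ (v 1) (v 2) ∪ segment ℝ (v 2) (v 0) := by
  obtain ⟨p, q, r, hp, hq, hr, hs, he⟩ := (hull3 _ _ _ _).1 hy'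
  have hi' : i = 0 ∨ i = 1 ∨ i = 2 :=
    (by decide : ∀ i : Fin 4, i ≠ 3 → i = 0 ∨ i = 1 ∨ i = 2) i hi
  rcases hi' with rfl | rfl | rfl
  · rw [edge_of_set v 0 1 2 3 (by decide)] at hy
    obtain ⟨p', q', r', hp', hq', hr', hs', he'⟩ := (hull3 _ _ _ _).1 hy
    obtain ⟨h0, h1, h2, h3⟩ := aff hv p (q - p') (r - q') (-r') (by linarith) (by
      have : p • v 0 + (q - p') • v 1 + (r - q') • v 2 + (-r') • v 3 =
        (p • v 0 + q • v 1 + r • v 2) - (p' • v 1 + q' • v 2 + r' • v 3) := by module
      rw [this, he, he', sub_self])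
    left; right
    rw [← he, h0, zero_smul, zero_add]
    exact edge_of_seg _ _ q r hq hr (by linarith)
  · rw [edge_of_set v 1 0 2 3 (by decide)] at hy
    obtain ⟨p', q', r', hp', hq', hr', hs', he'⟩ := (hull3 _ _ _ _).1 hy
    obtain ⟨h0, h1, h2, h3⟩ := aff hv (p - p') q (r - q') (-r') (by linarith) (by
      have : (p - p') • v 0 + q • v 1 + (r - q') • v 2 + (-r') • v 3 =
        (p • v 0 + q • v 1 + r • v 2) - (p' • v 0 + q' • v 2 + r' • v 3) := by module
      rw [this, he, he', sub_self])
    right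
    rw [← he, h1, zero_smul, add_zero, add_comm]
    exact edge_of_seg _ _ r p hr hp (by linarith)
  · rw [edge_of_set v 2 0 1 3 (by decide)] at hy
    obtain ⟨p', q', r', hp', hq', hr', hs', he'⟩ := (hull3 _ _ _ _).1 hy
    obtain ⟨h0, h1, h2, h3⟩ := aff hv (p - p') (q - q') r (-r') (by linarith) (by
      have : (p - p') • v 0 + (q - q') • v 1 + r • v 2 + (-r') • v 3 =
        (p • v 0 + q • v 1 + r • v 2) - (p' • v 0 + q' • v 1 + r' • v 3) := by module
      rw [this, he, he', sub_self])
    left; left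
    rw [← he, h2, zero_smul, add_zero]
    exact edge_of_seg _ _ p q hp hq (by linarith)
-- END row edge_of

-- BEGIN row exit_seg
private theorem exit_seg_closed (v : Fin 4 → E3) (i : Fin 4) :
    IsClosed (convexHull ℝ (v '' {j | j ≠ i})) :=
  ((Set.toFinite (v '' {j | j ≠ i})).isCompact_convexHull ℝ).isClosed

private theorem exit_seg_face (v : Fin 4 → E3) :
    v '' {j | j ≠ 3} = {v 0, v 1, v 2} := by
  ext y
  simp only [mem_image, mem_setOf_eq, mem_insert_iff, mem_singleton_iff]
  constructor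
  · rintro ⟨j, hj, rfl⟩
    fin_cases j
    · exact Or.inl rfl
    · exact Or.inr (Or.inl rfl)
    · exact Or.inr (Or.inr rfl)
    · exact absurd rfl hj
  · rintro (rfl | rfl | rfl)
    · exact ⟨0, by decide, rfl⟩
    · exact ⟨1, by decide, rfl⟩
    · exact ⟨2, by decide, rfl⟩

/-- The last point of a segment in a face. PROOF. Let `K = {k ∈ [0, 1] | (1 - k) • y + k • z in the
face}`: closed, not empty (`0`), does not contain `1`; `k = sSup K < 1` is in `K`. The points with
parameter in `(k, 1]` are in the surface and not in the face `v 0, v 1, v 2`, so in the union of the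
three other faces, which is closed; so the point of `k` is also in that union; `edge_of`. -/
theorem exit_seg {v : Fin 4 → E3} (hv : AffineIndependent ℝ v) (y z : E3)
    (hs : segment ℝ y z ⊆ Surf v) (hy : y ∈ convexHull ℝ {v 0, v 1, v 2})
    (hz : z ∉ convexHull ℝ {v 0, v 1, v 2}) :
    ∃ w ∈ segment ℝ y z,
      w ∈ segment ℝ (v 0) (v 1) ∪ segment ℝ (v 1) (v 2) ∪ segment ℝ (v 2) (v 0) := by
  have hcl : IsClosed (convexHull ℝ {v 0, v 1, v 2}) := by
    rw [← exit_seg_face]; exact exit_seg_closed v 3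
  set g : ℝ → E3 := fun k => (1 - k) • y + k • z with hg
  have hgc : Continuous g := by
    rw [hg]; fun_prop
  set K : Set ℝ := Icc 0 1 ∩ g ⁻¹' (convexHull ℝ {v 0, v 1, v 2}) with hK
  have hKc : IsCompact K := isCompact_Icc.inter_right (hcl.preimage hgc)
  have h0 : (0 : ℝ) ∈ K := by
    refine ⟨⟨le_refl _, zero_le_one⟩, ?_⟩
    simp only [mem_preimage, hg, sub_zero, one_smul, zero_smul, add_zero]
    exact hy
  obtain ⟨k, hk, hmax⟩ := hKc.exists_isMaxOn ⟨0, h0⟩ continuousOn_id
  have hk1 : k < 1 := by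
    rcases lt_or_eq_of_le hk.1.2 with h | h
    · exact h
    · exfalso
      apply hz
      have := hk.2
      rw [h] at this
      simpa only [mem_preimage, hg, sub_self, zero_smul, one_smul, zero_add] using this
  have hseg : ∀ r : ℝ, 0 ≤ r → r ≤ 1 → g r ∈ segment ℝ y z :=
    fun r h0 h1 => ⟨1 - r, r, by linarith, h0, by ring, rfl⟩
  set U : Set E3 := ⋃ i ∈ ({i | i ≠ 3} : Set (Fin 4)), convexHull ℝ (v '' {j | j ≠ i}) with hU
  have hUc : IsClosed U :=
    Set.Finite.isClosed_biUnion (Set.toFinite _) (fun i _ => exit_seg_closed v i)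
  have hgU : g k ∈ U := by
    have hmem : k ∈ closure (Ioc k 1) := by
      rw [closure_Ioc hk1.ne]
      exact left_mem_Icc.2 hk1.le
    have hmaps : MapsTo g (Ioc k 1) U := by
      intro r hr
      have hr0 : 0 ≤ r := hk.1.1.trans hr.1.le
      obtain ⟨i, hi⟩ := hs (hseg r hr0 hr.2)
      by_cases h3 : i = 3
      · exfalso
        subst h3
        rw [exit_seg_face] at hi
        have : r ≤ k := hmax (show r ∈ K from ⟨⟨hr0, hr.2⟩, hi⟩)
        exact absurd hr.1 (not_lt.2 this)
      · exact mem_biUnion (show i ∈ ({i | i ≠ 3} : Set (Fin 4)) from h3) hi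
    have := map_mem_closure hgc hmem hmaps
    rwa [hUc.closure_eq] at this
  refine ⟨g k, hseg k hk.1.1 hk.1.2, ?_⟩
  rw [hU, mem_iUnion₂] at hgU
  obtain ⟨i, hi, hgi⟩ := hgU
  exact edge_of hv _ i hi hgi hk.2
-- END row exit_seg

-- BEGIN row exit_pt
/-- Each path to `v 3` leaves the face through an edge. PROOF. `v 3` is not in the face (`hull3`,
`aff`). Let `i < n` be such that `c i` is in the face and `c (i + 1)` is not (`Nat.find` or
induction). `exit_seg` gives `w` on the segment `c i, c (i + 1)`. Then `dist x w ≤` length up to `i`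
plus `dist (c i) w`, `dist w (v 3) ≤ dist w (c (i + 1))` plus the rest
(`dist_le_range_sum_dist`, `Finset.sum_range_add` ...), and `dist (c i) w + dist w (c (i + 1)) =
dist (c i) (c (i + 1))`. -/
theorem exit_pt {v : Fin 4 → E3} (hv : AffineIndependent ℝ v) (x : E3)
    (hx : x ∈ convexHull ℝ {v 0, v 1, v 2}) (n : ℕ) (c : ℕ → E3)
    (h : IsPath (Surf v) x (v 3) n c) :
    ∃ w ∈ segment ℝ (v 0) (v 1) ∪ segment ℝ (v 1) (v 2) ∪ segment ℝ (v 2) (v 0),
      dist x w + dist w (v 3) ≤ len n c := by
  classical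
  have h3 : v 3 ∉ convexHull ℝ {v 0, v 1, v 2} := by
    intro hm
    have hcomb := (hull3 _ _ _ _).1 hm
    obtain ⟨a, b, d, -, -, -, hs, he⟩ := hcomb
    have hu := (affineIndependent_iff).1 hv Finset.univ ![a, b, d, -1]
    rw [Fin.sum_univ_four, Fin.sum_univ_four] at hu
    simp only [Matrix.cons_val_zero, Matrix.cons_val_one, Matrix.cons_val] at hu
    have h1 := hu (by linarith) (by rw [he]; module) 3 (Finset.mem_univ _)
    simp at h1
  obtain ⟨hc0, hcn, hseg⟩ := h
  have hex : ∃ i, c i ∉ convexHull ℝ {v 0, v 1, v 2} := ⟨n, by rw [hcn]; exact h3⟩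
  have hfind := Nat.find_spec hex
  have hmin : ∀ j < Nat.find hex, c j ∈ convexHull ℝ {v 0, v 1, v 2} := fun j hj =>
    not_not.1 (Nat.find_min hex hj)
  have hle : Nat.find hex ≤ n := Nat.find_le (by rw [hcn]; exact h3)
  have hpos : Nat.find hex ≠ 0 := by
    intro h0
    rw [h0, hc0] at hfind
    exact hfind hx
  obtain ⟨i, hi⟩ := Nat.exists_eq_succ_of_ne_zero hpos
  rw [Nat.succ_eq_add_one] at hi
  rw [hi] at hfind hmin hle
  obtain ⟨w, hw, hw'⟩ := exit_seg hv (c i) (c (i + 1)) (hseg i (by omega)) (hmin i (by omega)) hfind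
  refine ⟨w, hw', ?_⟩
  have e1 : dist (c i) w + dist w (c (i + 1)) = dist (c i) (c (i + 1)) :=
    dist_add_dist_of_mem_segment hw
  have e2 : dist x (c i) ≤ ∑ j ∈ Finset.range i, dist (c j) (c (j + 1)) := by
    rw [← hc0]
    exact dist_le_range_sum_dist c i
  have e3 : dist (c (i + 1)) (v 3) ≤ ∑ j ∈ Finset.Ico (i + 1) n, dist (c j) (c (j + 1)) := by
    rw [← hcn]
    exact dist_le_Ico_sum_dist c hle
  have e4 : len n c = (∑ j ∈ Finset.range i, dist (c j) (c (j + 1)) + dist (c i) (c (i + 1))) +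
      ∑ j ∈ Finset.Ico (i + 1) n, dist (c j) (c (j + 1)) := by
    unfold len
    rw [← Finset.sum_range_succ, Finset.sum_range_add_sum_Ico _ hle]
  have e5 : dist x w ≤ dist x (c i) + dist (c i) w := dist_triangle _ _ _
  have e6 : dist w (v 3) ≤ dist w (c (i + 1)) + dist (c (i + 1)) (v 3) := dist_triangle _ _ _
  linarith
-- END row exit_pt

-- BEGIN row min_q
private theorem min_q_comp (a b : E3) : IsCompact (segment ℝ a b) := by
  rw [← convexHull_pair]
  exact (Set.toFinite _).isCompact_convexHull ℝ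

private theorem min_q_open {a b q : E3} (h : q ∈ segment ℝ a b) (h1 : q ≠ a) (h2 : q ≠ b) :
    q ∈ openSegment ℝ a b := by
  rw [← insert_endpoints_openSegment] at h
  rcases h with h | h | h
  · exact absurd h h1
  · exact absurd h h2
  · exact h

/-- The shortest path to `v 3` crosses an open edge. PROOF. The union of the three edges is compact
(`isCompact` of a segment: image of `[0, 1]`), so `dist x w + dist w (v 3)` has a minimum `q` on it
(`IsCompact.exists_isMinOn`). By `corner` (with `aff` for `hi`; `Set.insert_comm` for `hx`) `q` is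
not a vertex: if `q = v 1` use `p = v 1, a = v 0, c = v 2`, and so on; if `x` is itself `v 1` this is
excluded by `hn`. So `q` is in an open edge; `exit_pt` gives the bound. -/
theorem min_q {v : Fin 4 → E3} (hv : AffineIndependent ℝ v) (x : E3)
    (hx : x ∈ convexHull ℝ {v 0, v 1, v 2}) (hn : ∀ i, x ≠ v i) :
    ∃ q ∈ openSegment ℝ (v 0) (v 1) ∪ openSegment ℝ (v 1) (v 2) ∪ openSegment ℝ (v 2) (v 0),
      ∀ n c, IsPath (Surf v) x (v 3) n c → dist x q + dist q (v 3) ≤ len n c := by
  have hB : IsCompact (segment ℝ (v 0) (v 1) ∪ segment ℝ (v 1) (v 2) ∪ segment ℝ (v 2) (v 0)) :=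
    ((min_q_comp _ _).union (min_q_comp _ _)).union (min_q_comp _ _)
  have hne : (segment ℝ (v 0) (v 1) ∪ segment ℝ (v 1) (v 2) ∪
      segment ℝ (v 2) (v 0)).Nonempty := ⟨v 0, Or.inl (Or.inl (left_mem_segment ℝ _ _))⟩
  obtain ⟨q, hq, hmin⟩ := hB.exists_isMinOn hne
    (f := fun w => dist x w + dist w (v 3)) (by fun_prop)
  have hmin' : ∀ w ∈ segment ℝ (v 0) (v 1) ∪ segment ℝ (v 1) (v 2) ∪ segment ℝ (v 2) (v 0),
      dist x q + dist q (v 3) ≤ dist x w + dist w (v 3) := fun w hw => hmin hw
  have h0 : q ≠ v 0 := by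
    rintro rfl
    obtain ⟨y, hy, hlt⟩ := corner x (v 3) (v 0) (v 1) (v 2)
      (by rw [Set.insert_comm]; exact hx) (hn 0) (by
        intro k l hkl
        have hr : (k + l - 1) • v 0 + (-k) • v 1 + (-l) • v 2 + (1 : ℝ) • v 3 = 0 := by
          rw [sub_eq_iff_eq_add] at hkl
          rw [hkl]; module
        exact one_ne_zero (aff hv _ _ _ _ (by ring) hr).2.2.2)
    refine absurd (hmin' y ?_) (not_le.2 hlt)
    rcases hy with hy | hy
    · exact Or.inl (Or.inl hy)
    · exact Or.inr (by rw [segment_symm]; exact hy)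
  have h1 : q ≠ v 1 := by
    rintro rfl
    obtain ⟨y, hy, hlt⟩ := corner x (v 3) (v 1) (v 0) (v 2) hx (hn 1) (by
        intro k l hkl
        have hr : (-k) • v 0 + (k + l - 1) • v 1 + (-l) • v 2 + (1 : ℝ) • v 3 = 0 := by
          rw [sub_eq_iff_eq_add] at hkl
          rw [hkl]; module
        exact one_ne_zero (aff hv _ _ _ _ (by ring) hr).2.2.2)
    refine absurd (hmin' y ?_) (not_le.2 hlt)
    rcases hy with hy | hy
    · exact Or.inl (Or.inl (by rw [segment_symm]; exact hy))
    · exact Or.inl (Or.inr hy)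
  have h2 : q ≠ v 2 := by
    rintro rfl
    obtain ⟨y, hy, hlt⟩ := corner x (v 3) (v 2) (v 0) (v 1)
      (by rw [Set.pair_comm (v 2) (v 1)]; exact hx) (hn 2) (by
        intro k l hkl
        have hr : (-k) • v 0 + (-l) • v 1 + (k + l - 1) • v 2 + (1 : ℝ) • v 3 = 0 := by
          rw [sub_eq_iff_eq_add] at hkl
          rw [hkl]; module
        exact one_ne_zero (aff hv _ _ _ _ (by ring) hr).2.2.2)
    refine absurd (hmin' y ?_) (not_le.2 hlt)
    rcases hy with hy | hy
    · exact Or.inr hy
    · exact Or.inl (Or.inr (by rw [segment_symm]; exact hy))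
  refine ⟨q, ?_, ?_⟩
  · rcases hq with (hq | hq) | hq
    · exact Or.inl (Or.inl (min_q_open hq h0 h1))
    · exact Or.inl (Or.inr (min_q_open hq h1 h2))
    · exact Or.inr (min_q_open hq h2 h0)
  · intro n c hp
    obtain ⟨w, hw, hle⟩ := exit_pt hv x hx n c hp
    exact (hmin' w hw).trans hle
-- END row min_q

-- BEGIN row surf_perm
/-- Renaming the vertices does not change the surface. PROOF. `(v ∘ σ) '' {j | j ≠ i} =
v '' {j | j ≠ σ i}`. -/
theorem surf_perm (v : Fin 4 → E3) (σ : Equiv.Perm (Fin 4)) : Surf (v ∘ σ) = Surf v := by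
  have h1 : ∀ i, (v ∘ σ) '' {j | j ≠ i} = v '' {j | j ≠ σ i} := by
    intro i
    rw [Set.image_comp]
    congr 1
    ext j
    constructor
    · rintro ⟨k, hk, rfl⟩
      exact fun h => hk (σ.injective h)
    · intro hj
      refine ⟨σ.symm j, fun h => hj ?_, σ.apply_symm_apply j⟩
      rw [← h, σ.apply_symm_apply]
  ext y
  constructor
  · rintro ⟨i, hi⟩
    exact ⟨σ i, by rw [← h1]; exact hi⟩
  · rintro ⟨i, hi⟩
    refine ⟨σ.symm i, ?_⟩
    rw [h1, σ.apply_symm_apply]
    exact hi
-- END row surf_perm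

-- BEGIN row pos
/-- Each point of the surface that is not a vertex is in the standard position, after renaming.
PROOF. `x` is in the face opposite to `v i`; let `σ` exchange `i` and `3`: `v ∘ σ` is affinely
independent, has the same surface (`surf_perm`), and `x` is in the hull of `v (σ 0), v (σ 1),
v (σ 2)`. `min_q` for `v ∘ σ`; if `q` is in the edge `0 1` or `2 0` compose `σ` with a permutation
of `0, 1, 2` which carries `1, 2` to that edge. -/
theorem pos {v : Fin 4 → E3} (hv : AffineIndependent ℝ v) (x : E3) (hx : x ∈ Surf v)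
    (hn : ∀ i, x ≠ v i) :
    ∃ σ : Equiv.Perm (Fin 4), x ∈ convexHull ℝ {v (σ 0), v (σ 1), v (σ 2)} ∧
      ∃ q ∈ openSegment ℝ (v (σ 1)) (v (σ 2)),
        ∀ n c, IsPath (Surf v) x (v (σ 3)) n c → dist x q + dist q (v (σ 3)) ≤ len n c := by
  obtain ⟨i, hi⟩ := hx
  have hset : v '' {j | j ≠ i} =
      {v (Equiv.swap i 3 0), v (Equiv.swap i 3 1), v (Equiv.swap i 3 2)} := by
    ext y
    constructor
    · rintro ⟨j, hj, rfl⟩
      obtain ⟨k, hk⟩ : ∃ k, Equiv.swap i 3 k = j :=
        ⟨Equiv.swap i 3 j, Equiv.swap_apply_self _ _ _⟩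
      have hk3 : k ≠ 3 := by
        rintro rfl
        exact hj (hk.symm.trans (Equiv.swap_apply_right i 3))
      have hk4 : ∀ k : Fin 4, k = 0 ∨ k = 1 ∨ k = 2 ∨ k = 3 := by decide
      rw [← hk]
      rcases hk4 k with h | h | h | h
      · rw [h]; simp
      · rw [h]; simp
      · rw [h]; simp
      · exact absurd h hk3
    · intro hy
      simp only [Set.mem_insert_iff, Set.mem_singleton_iff] at hy
      have hne : ∀ k : Fin 4, k ≠ 3 → Equiv.swap i 3 k ≠ i := fun k hk h =>
        hk ((Equiv.swap i 3).injective (h.trans (Equiv.swap_apply_right i 3).symm))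
      rcases hy with h | h | h
      · exact ⟨_, hne 0 (by decide), h.symm⟩
      · exact ⟨_, hne 1 (by decide), h.symm⟩
      · exact ⟨_, hne 2 (by decide), h.symm⟩
  rw [hset] at hi
  obtain ⟨σ, hσ⟩ : ∃ σ : Equiv.Perm (Fin 4), σ = Equiv.swap i 3 := ⟨_, rfl⟩
  rw [← hσ] at hi
  obtain ⟨q, hq, hmin⟩ := min_q (hv.comp_embedding σ.toEmbedding) x hi (fun j => hn (σ j))
  have hS : Surf (v ∘ σ) = Surf v := surf_perm v σ
  have hmin' : ∀ n c, IsPath (Surf v) x (v (σ 3)) n c →
      dist x q + dist q (v (σ 3)) ≤ len n c := by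
    intro n c hc
    rw [← hS] at hc
    exact hmin n c hc
  have hrot : ∀ τ : Equiv.Perm (Fin 4), τ 3 = 3 →
      ({v (σ (τ 0)), v (σ (τ 1)), v (σ (τ 2))} : Set E3) = {v (σ 0), v (σ 1), v (σ 2)} →
      q ∈ openSegment ℝ (v (σ (τ 1))) (v (σ (τ 2))) →
      ∃ σ : Equiv.Perm (Fin 4), x ∈ convexHull ℝ {v (σ 0), v (σ 1), v (σ 2)} ∧
      ∃ q ∈ openSegment ℝ (v (σ 1)) (v (σ 2)),
        ∀ n c, IsPath (Surf v) x (v (σ 3)) n c → dist x q + dist q (v (σ 3)) ≤ len n c := by
    intro τ h3 hs hq
    refine ⟨τ.trans σ, ?_, q, hq, ?_⟩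
    · show x ∈ convexHull ℝ {v (σ (τ 0)), v (σ (τ 1)), v (σ (τ 2))}
      rw [hs]
      exact hi
    · show ∀ n c, IsPath (Surf v) x (v (σ (τ 3))) n c →
        dist x q + dist q (v (σ (τ 3))) ≤ len n c
      rw [h3]
      exact hmin'
  rcases hq with (hq | hq) | hq
  · obtain ⟨τ, t0, t1, t2, t3⟩ : ∃ τ : Equiv.Perm (Fin 4), τ 0 = 2 ∧ τ 1 = 0 ∧ τ 2 = 1 ∧ τ 3 = 3 :=
      ⟨Equiv.swap 0 1 * Equiv.swap 0 2, by decide, by decide, by decide, by decide⟩
    refine hrot τ t3 ?_ ?_
    · rw [t0, t1, t2]
      ext y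
      simp only [Set.mem_insert_iff, Set.mem_singleton_iff]
      tauto
    · rw [t1, t2]
      exact hq
  · exact ⟨σ, hi, q, hq, hmin'⟩
  · obtain ⟨τ, t0, t1, t2, t3⟩ : ∃ τ : Equiv.Perm (Fin 4), τ 0 = 1 ∧ τ 1 = 2 ∧ τ 2 = 0 ∧ τ 3 = 3 :=
      ⟨Equiv.swap 0 2 * Equiv.swap 0 1, by decide, by decide, by decide, by decide⟩
    refine hrot τ t3 ?_ ?_
    · rw [t0, t1, t2]
      ext y
      simp only [Set.mem_insert_iff, Set.mem_singleton_iff]
      tauto
    · rw [t1, t2]
      exact hq
-- END row pos

end Pool.Agent.Cac
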